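import Pool.Agent.X296.Enr.Sel

/-!
# The twists of double covers of Kummer type with rational points
-/

set_option autoImplicit false

namespace Pool.Agent.X296.Kum

open NumberField IsDedekindDomain H645.ABC

section val

variable {K : Type*} [Field K] {Γ : Type*} [LinearOrderedCommGroupWithZero Γ]

/-- the value of a binary quadratic form with unit end coefficients -/
lemma val_quad (V : Valuation K Γ) {a b c x y : K} (ha : V a = 1) (hb : V b ≤ 1) (hc : V c = 1)
    (h : V x ≠ V y) : ∃ g : K, g ≠ 0 ∧ V (a * x ^ 2 + b * (x * y) + c * y ^ 2) = V g ^ 2 := by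
  have key : ∀ {a b c x y : K}, V a = 1 → V b ≤ 1 → V c = 1 → V x < V y →
      V (a * x ^ 2 + b * (x * y) + c * y ^ 2) = V y ^ 2 := by
    intro a b c x y ha hb hc h
    have hy : 0 < V y := lt_of_le_of_lt zero_le h
    have h1 : V (a * x ^ 2) < V (c * y ^ 2) := by
      rw [map_mul, map_mul, ha, hc, one_mul, one_mul, map_pow, map_pow]
      exact pow_lt_pow_left₀ h zero_le two_ne_zero
    have h2 : V (b * (x * y)) < V (c * y ^ 2) := by
      rw [map_mul, map_mul, map_mul, hc, one_mul, map_pow, pow_two]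
      calc V b * (V x * V y) ≤ 1 * (V x * V y) := mul_le_mul' hb le_rfl
        _ = V x * V y := one_mul _
        _ < V y * V y := mul_lt_mul_of_pos_right h hy
    have h3 : V (a * x ^ 2 + b * (x * y)) < V (c * y ^ 2) := Valuation.map_add_lt V h1 h2
    rw [Valuation.map_add_eq_of_lt_right V h3, map_mul, hc, one_mul, map_pow]
  rcases lt_or_gt_of_ne h with h | h
  · refine ⟨y, ?_, key ha hb hc h⟩
    rintro rfl
    rw [map_zero] at h
    exact absurd h (not_lt.2 zero_le)
  · refine ⟨x, ?_, ?_⟩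
    · rintro rfl
      rw [map_zero] at h
      exact absurd h (not_lt.2 zero_le)
    · have e : a * x ^ 2 + b * (x * y) + c * y ^ 2 = c * y ^ 2 + b * (y * x) + a * x ^ 2 := by ring
      rw [e]
      exact key hc hb ha h

end val

variable {K : Type} [Field K] [NumberField K] {r : ℕ}

/-- the quartic form of the twist -/
def qtw (a b c d s t : K) : K := a * (d * s ^ 2) ^ 2 + b * ((d * s ^ 2) * t ^ 2) + c * (t ^ 2) ^ 2

/-- a twist with rational points is unramified at the places of good reduction -/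
theorem even_of_point {a b c : Fin r → K} {v : HeightOneSpectrum (𝓞 K)}
    (ha : ∀ i, v.valuation K (a i) = 1) (hb : ∀ i, v.valuation K (b i) ≤ 1)
    (hc : ∀ i, v.valuation K (c i) = 1) {d : Kˣ} {w : K} {s t : Fin r → K}
    (hst : ∀ i, s i ≠ 0 ∨ t i ≠ 0)
    (h : (d : K) * w ^ 2 = ∏ i, qtw (a i) (b i) (c i) d (s i) (t i)) : (2 : ℤ) ∣ vl v d := by
  classical
  by_contra hodd
  set V := v.valuation K with hV
  have hne : ∀ i, V ((d : K) * s i ^ 2) ≠ V (t i ^ 2) := by
    intro i he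
    rw [map_mul, map_pow, map_pow] at he
    have h1 : t i ≠ 0 := by
      intro h0
      rw [h0, map_zero, zero_pow two_ne_zero] at he
      have h2 : s i ≠ 0 := (hst i).resolve_right (not_not.2 h0)
      exact mul_ne_zero ((Valuation.ne_zero_iff V).2 d.ne_zero)
        (pow_ne_zero 2 ((Valuation.ne_zero_iff V).2 h2)) he
    have h0 : s i ≠ 0 := by
      intro h0
      rw [h0, map_zero, zero_pow two_ne_zero, mul_zero] at he
      exact (pow_ne_zero 2 ((Valuation.ne_zero_iff V).2 h1)) he.symm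
    apply hodd
    have h4 : vl v (d * (Units.mk0 _ h0) ^ 2) = vl v ((Units.mk0 _ h1) ^ 2) := by
      unfold vl
      congr 1
      rw [← WithZero.coe_inj, HeightOneSpectrum.valuationOfNeZero_eq,
        HeightOneSpectrum.valuationOfNeZero_eq]
      simpa using he
    rw [vl_mul, vl_pow, vl_pow] at h4
    refine ⟨vl v (Units.mk0 _ h1) - vl v (Units.mk0 _ h0), ?_⟩
    push_cast at h4
    linarith
  choose g hg0 hg using fun i => val_quad V (ha i) (hb i) (hc i) (hne i)
  have h1 : V ((d : K) * w ^ 2) = V ((∏ i, g i) ^ 2) := by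
    rw [h, map_prod, map_pow, map_prod, ← Finset.prod_pow]
    exact Finset.prod_congr rfl fun i _ => hg i
  have hG : (∏ i, g i) ≠ 0 := Finset.prod_ne_zero_iff.2 fun i _ => hg0 i
  have hw : w ≠ 0 := by
    rintro rfl
    rw [zero_pow two_ne_zero, mul_zero, map_zero] at h1
    exact (Valuation.ne_zero_iff V).2 (pow_ne_zero 2 hG) h1.symm
  apply hodd
  have h4 : vl v (d * (Units.mk0 _ hw) ^ 2) = vl v ((Units.mk0 _ hG) ^ 2) := by
    unfold vl
    congr 1
    rw [← WithZero.coe_inj, HeightOneSpectrum.valuationOfNeZero_eq,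
      HeightOneSpectrum.valuationOfNeZero_eq]
    simpa using h1
  rw [vl_mul, vl_pow, vl_pow] at h4
  refine ⟨vl v (Units.mk0 _ hG) - vl v (Units.mk0 _ hw), ?_⟩
  push_cast at h4
  linarith

lemma bad_finite {x : K} : {v : HeightOneSpectrum (𝓞 K) | x ≠ 0 ∧ v.valuation K x ≠ 1}.Finite := by
  by_cases hk : x = 0
  · simp [hk]
  · refine (supp_finite (Units.mk0 _ hk)).subset ?_
    rintro v ⟨-, hv⟩ h0
    apply hv
    have h1 : v.valuationOfNeZero (Units.mk0 _ hk) = 1 := by
      unfold vl at h0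
      exact h0
    have h2 := v.valuationOfNeZero_eq (Units.mk0 _ hk)
    rw [h1] at h2
    exact h2.symm

/-- the twists with rational points belong to finitely many classes modulo squares -/
theorem exists_twists {a b c : Fin r → K} (ha : ∀ i, a i ≠ 0) (hc : ∀ i, c i ≠ 0) :
    ∃ D : Set K, D.Finite ∧ 0 ∉ D ∧ ∀ (d w : K) (s t : Fin r → K), d ≠ 0 →
      (∀ i, s i ≠ 0 ∨ t i ≠ 0) → d * w ^ 2 = ∏ i, qtw (a i) (b i) (c i) d (s i) (t i) →
      ∃ e ∈ D, ∃ u : K, u ≠ 0 ∧ d = e * u ^ 2 := by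
  classical
  set S : Set (HeightOneSpectrum (𝓞 K)) := ⋃ i : Fin r, ({v | a i ≠ 0 ∧ v.valuation K (a i) ≠ 1} ∪
    {v | b i ≠ 0 ∧ v.valuation K (b i) ≠ 1} ∪ {v | c i ≠ 0 ∧ v.valuation K (c i) ≠ 1}) with hS
  have hSf : S.Finite :=
    Set.finite_iUnion fun i => (bad_finite.union bad_finite).union bad_finite
  obtain ⟨D, hD, hD0, h⟩ := X296.Enr.exists_classes S hSf
  refine ⟨D, hD, hD0, fun d w s t hd hst hE => ?_⟩
  refine h (Units.mk0 d hd) fun v hv => ?_
  refine even_of_point (a := a) (b := b) (c := c) (fun i => ?_) (fun i => ?_) (fun i => ?_) hst hE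
  · by_contra hne
    exact hv (Set.mem_iUnion.2 ⟨i, Or.inl (Or.inl ⟨ha i, hne⟩)⟩)
  · by_cases hb : b i = 0
    · rw [hb, map_zero]
      exact zero_le
    · refine le_of_eq ?_
      by_contra hne
      exact hv (Set.mem_iUnion.2 ⟨i, Or.inl (Or.inr ⟨hb, hne⟩)⟩)
  · by_contra hne
    exact hv (Set.mem_iUnion.2 ⟨i, Or.inr ⟨hc i, hne⟩⟩)

end Pool.Agent.X296.Kum
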