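import Pool.Agent.X296.Kum.Slice
import Pool.Agent.X296.Kum.Sel

/-!
# Free quotients of double covers of Kummer type over number fields
-/

set_option autoImplicit false

open Filter Topology MvPolynomial Matrix

namespace Pool.Agent.X296.KumK

open Pool.Agent.TH729.CV Pool.Agent.Y720.MZ Pool.Agent.X296.Kum

/-- the indices of the coordinates `z_i z_j` and `w z_i` -/
abbrev QI (r : ℕ) : Type := (Fin r × Fin r) ⊕ Fin r

variable {r : ℕ}

section field

variable {F : Type*} [Field F]

/-- the points of the affine quotient -/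
def OnQ (a b c : Fin r → F) (p : QI r → F) : Prop :=
  (∀ i j k l, p (Sum.inl (i, j)) * p (Sum.inl (k, l)) = p (Sum.inl (i, k)) * p (Sum.inl (j, l))) ∧
  (∀ i j, p (Sum.inl (i, j)) = p (Sum.inl (j, i))) ∧
  (∀ i j k, p (Sum.inr i) * p (Sum.inl (j, k)) = p (Sum.inr j) * p (Sum.inl (i, k))) ∧
  ∀ i j, p (Sum.inr i) * p (Sum.inr j) = p (Sum.inl (i, j)) *
    ∏ k, (a k * p (Sum.inl (k, k)) ^ 2 + b k * p (Sum.inl (k, k)) + c k)

/-- the image of a point of the twist -/
def img (d : F) (u : Fin (r + 1) → F) : QI r → F :=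
  Sum.elim (fun x => d * (u x.1.succ * u x.2.succ)) fun i => d * (u 0 * u i.succ)

/-- the same as a polynomial map -/
noncomputable def imgp (d : F) : QI r → MvPolynomial (Fin (r + 1)) F :=
  Sum.elim (fun x => C d * (X x.1.succ * X x.2.succ)) fun i => C d * (X 0 * X i.succ)

lemma eval_imgp (d : F) (u : Fin (r + 1) → F) : (fun k => eval u (imgp (r := r) d k)) = img d u := by
  funext k
  rcases k with ⟨i, j⟩ | i
  · simp [imgp, img]
  · simp [imgp, img]

lemma onQ_zero (a b c : Fin r → F) : OnQ a b c 0 := by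
  refine ⟨fun i j k l => ?_, fun i j => ?_, fun i j k => ?_, fun i j => ?_⟩ <;> simp

lemma img_onQ {a b c : Fin r → F} {d : F} {u : Fin (r + 1) → F}
    (h : d * u 0 ^ 2 = ∏ i, (a i * (d * u i.succ ^ 2) ^ 2 + b i * (d * u i.succ ^ 2) + c i)) :
    OnQ a b c (img d u) := by
  refine ⟨fun i j k l => ?_, fun i j => ?_, fun i j k => ?_, fun i j => ?_⟩
  · simp only [img, Sum.elim_inl]; ring
  · simp only [img, Sum.elim_inl]; ring
  · simp only [img, Sum.elim_inl, Sum.elim_inr]; ring
  · simp only [img, Sum.elim_inl, Sum.elim_inr]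
    have e : ∏ k, (a k * (d * (u k.succ * u k.succ)) ^ 2 + b k * (d * (u k.succ * u k.succ)) +
        c k) = d * u 0 ^ 2 := by
      rw [h]
      refine Finset.prod_congr rfl fun k _ => ?_
      ring
    rw [e]
    ring

lemma exists_img {a b c : Fin r → F} {p : QI r → F} (hp : OnQ a b c p) (h0 : p ≠ 0) :
    ∃ (d : F) (u : Fin (r + 1) → F), d ≠ 0 ∧ p = img d u ∧
      d * u 0 ^ 2 = ∏ i, (a i * (d * u i.succ ^ 2) ^ 2 + b i * (d * u i.succ ^ 2) + c i) := by
  obtain ⟨h1, h2, h3, h4⟩ := hp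
  have hi : ∃ i, p (Sum.inl (i, i)) ≠ 0 := by
    by_contra hcon
    push Not at hcon
    apply h0
    have hv : ∀ i j, p (Sum.inl (i, j)) = 0 := by
      intro i j
      have := h1 i j i j
      rw [hcon i, zero_mul] at this
      exact mul_self_eq_zero.1 this
    funext k
    rcases k with ⟨i, j⟩ | i
    · exact hv i j
    · have := h4 i i
      rw [hcon i, zero_mul] at this
      exact mul_self_eq_zero.1 this
  obtain ⟨i, hi⟩ := hi
  set e := p (Sum.inl (i, i)) with he
  refine ⟨e, Fin.cons (p (Sum.inr i) / e) fun j => p (Sum.inl (i, j)) / e, hi, ?_, ?_⟩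
  · funext k
    rcases k with ⟨j, l⟩ | j
    · simp only [img, Sum.elim_inl, Fin.cons_succ]
      have := h1 i i j l
      field_simp
      rw [← he] at this
      linear_combination this
    · simp only [img, Sum.elim_inr, Fin.cons_zero, Fin.cons_succ]
      have := h3 j i i
      have h2' := h2 j i
      field_simp
      rw [he]
      rw [h2'] at this
      linear_combination this
  · simp only [Fin.cons_zero, Fin.cons_succ]
    have h5 := h4 i i
    have e1 : ∀ k, a k * (e * (p (Sum.inl (i, k)) / e) ^ 2) ^ 2 +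
        b k * (e * (p (Sum.inl (i, k)) / e) ^ 2) + c k =
        a k * p (Sum.inl (k, k)) ^ 2 + b k * p (Sum.inl (k, k)) + c k := by
      intro k
      have h6 : e * (p (Sum.inl (i, k)) / e) ^ 2 = p (Sum.inl (k, k)) := by
        have := h1 i i k k
        have h7 : e * (p (Sum.inl (i, k)) / e) ^ 2 = p (Sum.inl (i, k)) * p (Sum.inl (i, k)) / e := by
          field_simp
        rw [h7, ← this, ← he]
        field_simp
      rw [h6]
    simp only [e1]
    rw [← he] at h5
    have h8 : e * (p (Sum.inr i) / e) ^ 2 = p (Sum.inr i) * p (Sum.inr i) / e := by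
      field_simp
    rw [h8, h5]
    field_simp

/-- the points of the quotient over an algebraically closed field -/
theorem onQ_closed [IsAlgClosed F] (a b c : Fin r → F) (p : QI r → F) :
    OnQ a b c p ↔ ∃ (w : F) (z : Fin r → F), w ^ 2 = ∏ i, (a i * z i ^ 4 + b i * z i ^ 2 + c i) ∧
      (∀ i j, p (Sum.inl (i, j)) = z i * z j) ∧ ∀ i, p (Sum.inr i) = w * z i := by
  constructor
  · intro hp
    by_cases h0 : p = 0
    · obtain ⟨w, hw⟩ := IsAlgClosed.exists_pow_nat_eq (∏ i, c i) (n := 2) (by norm_num)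
      refine ⟨w, 0, ?_, ?_, ?_⟩
      · rw [hw]
        refine Finset.prod_congr rfl fun i _ => ?_
        simp
      · simp [h0]
      · simp [h0]
    · obtain ⟨d, u, hd, rfl, hu⟩ := exists_img hp h0
      obtain ⟨e, he⟩ := IsAlgClosed.exists_pow_nat_eq d (n := 2) (by norm_num)
      refine ⟨e * u 0, fun i => e * u i.succ, ?_, ?_, ?_⟩
      · rw [mul_pow, he, hu]
        refine Finset.prod_congr rfl fun i _ => ?_
        rw [← he]
        ring
      · intro i j
        simp only [img, Sum.elim_inl]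
        rw [← he]
        ring
      · intro i
        simp only [img, Sum.elim_inr]
        rw [← he]
        ring
  · rintro ⟨w, z, h, h1, h2⟩
    have e : p = img 1 (Fin.cons w z) := by
      funext k
      rcases k with ⟨i, j⟩ | i
      · rw [h1]
        simp [img]
      · rw [h2]
        simp [img]
    rw [e]
    refine img_onQ ?_
    simp only [Fin.cons_zero, Fin.cons_succ, one_mul, h]
    refine Finset.prod_congr rfl fun i _ => ?_
    ring

end field

section tw

variable {K : Type*} [Field K]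

/-- the coefficients of the quartic forms of the twists -/
def qd (a b c : Fin r → K) (d : K) : Fin r → Fin 5 → K :=
  fun i => ![c i, 0, b i * d, 0, a i * d ^ 2]

lemma mem_AK {a b c : Fin r → K} {d : K} (hd : d ≠ 0) (u : Fin (r + 1) → K) :
    u ∈ AK d⁻¹ (qd a b c d) ↔
      d * u 0 ^ 2 = ∏ i, (a i * (d * u i.succ ^ 2) ^ 2 + b i * (d * u i.succ ^ 2) + c i) := by
  have e : ∀ i, qf (qd a b c d i) ![1, u i.succ] =
      a i * (d * u i.succ ^ 2) ^ 2 + b i * (d * u i.succ ^ 2) + c i := by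
    intro i
    simp only [qf_eq, qd, Matrix.cons_val_zero, Matrix.cons_val_one, Matrix.cons_val]
    ring
  change u 0 ^ 2 = d⁻¹ * ∏ i, qf (qd a b c d i) ![1, u i.succ] ↔ _
  simp only [e]
  constructor
  · intro h
    rw [h, ← mul_assoc, mul_inv_cancel₀ hd, one_mul]
  · intro h
    rw [← h, ← mul_assoc, inv_mul_cancel₀ hd, one_mul]

lemma sep_biquad [CharZero K] {A B C₀ : K} (hC : C₀ ≠ 0) (hD : B ^ 2 - 4 * A * C₀ ≠ 0) :
    (Polynomial.C A * Polynomial.X ^ 4 + Polynomial.C B * Polynomial.X ^ 2 +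
      Polynomial.C C₀ : Polynomial K).Separable := by
  set D := B ^ 2 - 4 * A * C₀ with hDd
  have hCD : C₀ * D ≠ 0 := mul_ne_zero hC hD
  refine ⟨Polynomial.C (C₀ * D)⁻¹ * (Polynomial.C D + Polynomial.C (2 * A * B) * Polynomial.X ^ 2),
    Polynomial.C (C₀ * D)⁻¹ * (-(Polynomial.C (1 / 4) * Polynomial.X *
      (Polynomial.C D + Polynomial.C (2 * A * B) * Polynomial.X ^ 2 + Polynomial.C (B ^ 2)))), ?_⟩
  have h1 : Polynomial.C (C₀ * D)⁻¹ * Polynomial.C (C₀ * D) = (1 : Polynomial K) := by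
    rw [← map_mul, inv_mul_cancel₀ hCD, map_one]
  rw [← h1]
  have h2 : Polynomial.derivative (Polynomial.C A * Polynomial.X ^ 4 +
      Polynomial.C B * Polynomial.X ^ 2 + Polynomial.C C₀ : Polynomial K) =
      Polynomial.C (4 * A) * Polynomial.X ^ 3 + Polynomial.C (2 * B) * Polynomial.X := by
    apply Polynomial.funext
    intro x
    simp only [Polynomial.derivative_add, Polynomial.derivative_C_mul, Polynomial.derivative_C,
      Polynomial.derivative_X_pow, Polynomial.eval_add, Polynomial.eval_mul, Polynomial.eval_C,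
      Polynomial.eval_pow, Polynomial.eval_X, Polynomial.eval_zero]
    norm_num
    ring
  rw [h2]
  have h3 : (Polynomial.C D + Polynomial.C (2 * A * B) * Polynomial.X ^ 2) *
      (Polynomial.C A * Polynomial.X ^ 4 + Polynomial.C B * Polynomial.X ^ 2 + Polynomial.C C₀) +
      (-(Polynomial.C (1 / 4) * Polynomial.X *
      (Polynomial.C D + Polynomial.C (2 * A * B) * Polynomial.X ^ 2 + Polynomial.C (B ^ 2)))) *
      (Polynomial.C (4 * A) * Polynomial.X ^ 3 + Polynomial.C (2 * B) * Polynomial.X) =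
      (Polynomial.C (C₀ * D) : Polynomial K) := by
    apply Polynomial.funext
    intro x
    simp only [Polynomial.eval_add, Polynomial.eval_mul, Polynomial.eval_C, Polynomial.eval_pow,
      Polynomial.eval_X, Polynomial.eval_neg]
    rw [hDd]
    ring
  rw [← h3]
  ring

lemma qp_qd (a b c : Fin r → K) (d : K) (i : Fin r) : qp (qd a b c d i) =
    Polynomial.C (a i * d ^ 2) * Polynomial.X ^ 4 + Polynomial.C (b i * d) * Polynomial.X ^ 2 +
      Polynomial.C (c i) := by
  simp only [qp, qpol, qd, Matrix.cons_val_zero, Matrix.cons_val_one, Matrix.cons_val, map_zero]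
  ring

lemma qd_sep [CharZero K] {a b c : Fin r → K} {d : K} (hd : d ≠ 0) (i : Fin r) (hc : c i ≠ 0)
    (hD : b i ^ 2 - 4 * a i * c i ≠ 0) : (qp (qd a b c d i)).Separable := by
  rw [qp_qd]
  refine sep_biquad hc ?_
  have : (b i * d) ^ 2 - 4 * (a i * d ^ 2) * c i = d ^ 2 * (b i ^ 2 - 4 * a i * c i) := by ring
  rw [this]
  exact mul_ne_zero (pow_ne_zero 2 hd) hD

lemma qd_deg {a b c : Fin r → K} {d : K} (hd : d ≠ 0) (i : Fin r) (ha : a i ≠ 0) :
    3 ≤ (qp (qd a b c d i)).natDegree := by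
  rw [qp_qd]
  have h : a i * d ^ 2 ≠ 0 := mul_ne_zero ha (pow_ne_zero 2 hd)
  have h1 : (Polynomial.C (a i * d ^ 2) * Polynomial.X ^ 4 +
      Polynomial.C (b i * d) * Polynomial.X ^ 2 + Polynomial.C (c i) : Polynomial K).natDegree = 4 := by
    compute_degree!
  rw [h1]
  norm_num

end tw

section nf

variable {K : Type} [Field K] [NumberField K]

/-- the points of the quotient -/
theorem onQ_eq {a b c : Fin r → K} (ha : ∀ i, a i ≠ 0) (hc : ∀ i, c i ≠ 0) :
    ∃ D : Set K, D.Finite ∧ 0 ∉ D ∧ {p | OnQ a b c p} =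
      {0} ∪ ⋃ d ∈ D, (fun u k => eval u (imgp (r := r) d k)) '' AK d⁻¹ (qd a b c d) := by
  obtain ⟨D, hD, hD0, h⟩ := exists_twists (K := K) (b := b) ha hc
  refine ⟨D, hD, hD0, ?_⟩
  ext p
  simp only [Set.mem_union, Set.mem_ofPred_eq, Set.mem_singleton_iff, Set.mem_iUnion, exists_prop,
    Set.mem_image]
  constructor
  · intro hp
    by_cases h0 : p = 0
    · exact Or.inl h0
    · right
      obtain ⟨d, u, hd, rfl, hu⟩ := exists_img hp h0
      have hu' : d * u 0 ^ 2 = ∏ i, qtw (a i) (b i) (c i) d (u i.succ) 1 := by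
        rw [hu]
        refine Finset.prod_congr rfl fun i _ => ?_
        unfold qtw
        ring
      obtain ⟨e, he, s, hs, hde⟩ := h d (u 0) (fun i => u i.succ) (fun _ => 1) hd
        (fun i => Or.inr one_ne_zero) hu'
      have he0 : e ≠ 0 := fun h0 => hD0 (h0 ▸ he)
      refine ⟨e, he, fun k => s * u k, ?_, ?_⟩
      · rw [mem_AK he0]
        have e1 : ∀ i, a i * (e * (s * u i.succ) ^ 2) ^ 2 + b i * (e * (s * u i.succ) ^ 2) + c i =
            a i * (d * u i.succ ^ 2) ^ 2 + b i * (d * u i.succ ^ 2) + c i := by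
          intro i
          rw [hde]
          ring
        simp only [e1]
        rw [← hu, hde]
        ring
      · rw [eval_imgp]
        funext k
        rcases k with ⟨i, j⟩ | i
        · simp only [img, Sum.elim_inl]
          rw [hde]
          ring
        · simp only [img, Sum.elim_inr]
          rw [hde]
          ring
  · rintro (rfl | ⟨d, hd, u, hu, rfl⟩)
    · exact onQ_zero a b c
    · rw [eval_imgp]
      exact img_onQ ((mem_AK (fun h0 => hD0 (h0 ▸ hd)) u).1 hu)

variable {L : Type*} [NontriviallyNormedField L] [CompleteSpace L] [CharZero L] [ProperSpace L]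

lemma le_of_sq_le {t M : ℝ} (h : t ^ 2 ≤ M) (hM : 0 ≤ M) : t ≤ 1 + M := by
  nlinarith [sq_nonneg (t - 1)]

/-- the maps are proper -/
lemma img_proper (σ : K →+* L) {a b c : Fin r → K} {d : K} (hd : d ≠ 0) (x : QI r → L) :
    ∃ C : Set (Fin (r + 1) → L), IsCompact C ∧ ∃ U ∈ 𝓝 x, ∀ y ∈ AK d⁻¹ (qd a b c d),
      (fun k => σ (eval y (imgp (r := r) d k))) ∈ U → (fun i => σ (y i)) ∈ C := by
  set R : ℝ := ‖x‖ + 1 with hR
  have hR0 : 0 ≤ R := by positivity
  have hσd : 0 < ‖σ d‖ := norm_pos_iff.2 ((map_ne_zero σ).2 hd)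
  set M₁ : ℝ := R / ‖σ d‖ with hM₁
  have hM₁0 : 0 ≤ M₁ := by positivity
  set M₂ : ℝ := (∏ i, (‖σ (a i)‖ * R ^ 2 + ‖σ (b i)‖ * R + ‖σ (c i)‖)) / ‖σ d‖ with hM₂
  have hM₂0 : 0 ≤ M₂ := div_nonneg (Finset.prod_nonneg fun i _ => by positivity) hσd.le
  refine ⟨Metric.closedBall 0 (1 + M₁ + M₂), isCompact_closedBall _ _, Metric.ball x 1,
    Metric.ball_mem_nhds x one_pos, fun y hy hyU => ?_⟩
  rw [mem_AK hd] at hy
  have h1 : (fun k => σ (eval y (imgp (r := r) d k))) = fun k => σ (img d y k) := by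
    have := eval_imgp d y
    funext k
    rw [← congrFun this k]
  rw [h1, mem_ball_iff_norm] at hyU
  have h2 : ∀ k, ‖σ (img d y k)‖ ≤ R := by
    intro k
    have h3 : ‖(fun k => σ (img d y k)) - x‖ ≤ 1 := hyU.le
    have h4 := norm_le_pi_norm ((fun k => σ (img d y k)) - x) k
    have h5 := norm_le_pi_norm x k
    have h6 : σ (img d y k) = ((fun k => σ (img d y k)) - x) k + x k := by simp
    rw [h6]
    refine (norm_add_le _ _).trans ?_
    linarith
  have h3 : ∀ i : Fin r, ‖σ (y i.succ)‖ ^ 2 ≤ M₁ := by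
    intro i
    have h4 := h2 (Sum.inl (i, i))
    simp only [img, Sum.elim_inl, map_mul, norm_mul] at h4
    rw [hM₁, le_div_iff₀ hσd]
    linarith
  have h4 : ‖σ (y 0)‖ ^ 2 ≤ M₂ := by
    have h5 : ‖σ d‖ * ‖σ (y 0)‖ ^ 2 =
        ∏ i, ‖σ (a i * (d * y i.succ ^ 2) ^ 2 + b i * (d * y i.succ ^ 2) + c i)‖ := by
      rw [← norm_prod, ← map_prod, ← hy, map_mul, norm_mul, map_pow, norm_pow]
    rw [hM₂, le_div_iff₀ hσd, mul_comm, h5]
    refine Finset.prod_le_prod (fun i _ => norm_nonneg _) fun i _ => ?_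
    have h6 := h2 (Sum.inl (i, i))
    simp only [img, Sum.elim_inl] at h6
    have h7 : ‖σ (d * y i.succ ^ 2)‖ ≤ R := by
      rw [pow_two]
      exact h6
    have h8 : σ (a i * (d * y i.succ ^ 2) ^ 2 + b i * (d * y i.succ ^ 2) + c i) =
        σ (a i) * σ (d * y i.succ ^ 2) ^ 2 + σ (b i) * σ (d * y i.succ ^ 2) + σ (c i) := by
      rw [map_add, map_add, map_mul, map_mul, map_pow]
    rw [h8]
    refine (norm_add_le _ _).trans ?_
    refine add_le_add ((norm_add_le _ _).trans (add_le_add ?_ ?_)) le_rfl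
    · rw [norm_mul, norm_pow]
      exact mul_le_mul_of_nonneg_left (pow_le_pow_left₀ (norm_nonneg _) h7 2) (norm_nonneg _)
    · rw [norm_mul]
      exact mul_le_mul_of_nonneg_left h7 (norm_nonneg _)
  rw [mem_closedBall_zero_iff, pi_norm_le_iff_of_nonneg (by positivity)]
  intro i
  refine Fin.cases ?_ (fun i => ?_) i
  · have := le_of_sq_le h4 hM₂0
    linarith
  · have := le_of_sq_le (h3 i) hM₁0
    linarith

/-- **The local ideals of the rational points of the quotient.** -/
theorem onQ_FA (σ : K →+* L) (hσ : DenseRange σ) {a b c : Fin r → K} (ha : ∀ i, a i ≠ 0)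
    (hc : ∀ i, c i ≠ 0) (hD : ∀ i, b i ^ 2 - 4 * a i * c i ≠ 0) : FA σ {p | OnQ a b c p} := by
  classical
  obtain ⟨D, hDf, hD0, h⟩ := onQ_eq (b := b) ha hc
  have hun : ∀ {S : Set (QI r → K)}, FAon σ S Set.univ → FA σ S := by
    intro S hS
    unfold FAon at hS
    rwa [Set.image_univ] at hS
  rw [h]
  refine hun (FAon.union (FA.on ?_ _) ?_)
  · refine FA.convex hσ ?_
    rintro _ rfl _ rfl t
    simp
  · have e : (⋃ d ∈ D, (fun u k => eval u (imgp (r := r) d k)) '' AK d⁻¹ (qd a b c d)) =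
        ⋃ d ∈ hDf.toFinset, (fun u k => eval u (imgp (r := r) d k)) '' AK d⁻¹ (qd a b c d) := by
      simp
    rw [e]
    refine FAon.biUnion _ fun d hd => FA.on ?_ _
    have hd0 : d ≠ 0 := fun h0 => hD0 (h0 ▸ hDf.mem_toFinset.1 hd)
    refine FA_image (AK_FA ?_) _ fun x => img_proper σ hd0 x
    refine mainK σ hσ ?_ (fun i => qd_sep hd0 i (hc i) (hD i)) fun i => qd_deg hd0 i (ha i)
    ext i j
    simp [Subsingleton.elim i j]

end nf

end Pool.Agent.X296.KumK
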