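import Pool.Agent.TH729.SQ.Values
import Pool.Agent.TH729.SQ.Tri

/-!
# Closures of images of sets of rational points under polynomial maps
-/

set_option autoImplicit false

namespace Pool.Agent.X296.Kum

open MvPolynomial Pool.Agent.H581R2 Pool.Agent.TH729.SQ

/-- finite unions -/
lemma SA_biUnion {m : Type} [Finite m] {α : Type*} {D : Set α} (hD : D.Finite)
    {S : α → Set (m → ℚ)} (h : ∀ a ∈ D, SA (closure (rl (S a)))) :
    SA (closure (rl (⋃ a ∈ D, S a))) := by
  classical
  have e : rl (⋃ a ∈ D, S a) = ⋃ a ∈ D, rl (S a) := by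
    ext x
    simp only [rl, Set.mem_iUnion, exists_prop, Set.mem_setOf_eq]
    constructor
    · rintro ⟨r, ⟨a, ha, hr⟩, rfl⟩
      exact ⟨a, ha, r, hr, rfl⟩
    · rintro ⟨a, ha, r, hr, rfl⟩
      exact ⟨r, ⟨a, ha, hr⟩, rfl⟩
  rw [e, hD.closure_biUnion]
  have := SAP.exists_mem hD.toFinset (p := fun a x => x ∈ closure (rl (S a)))
    (fun a ha => h a (hD.mem_toFinset.1 ha))
  refine SAP.congr (q := fun x => x ∈ ⋃ a ∈ D, closure (rl (S a))) this fun x => ?_
  simp

lemma SA_union {m : Type} [Finite m] {S T : Set (m → ℚ)} (hS : SA (closure (rl S)))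
    (hT : SA (closure (rl T))) : SA (closure (rl (S ∪ T))) := by
  have := SA_biUnion (Set.finite_univ (α := Bool)) (S := fun b => if b then S else T)
    (fun b _ => by cases b <;> simpa)
  convert this using 3
  ext x
  simp only [Set.mem_univ, Set.iUnion_true, Set.mem_iUnion, Bool.exists_bool, Set.mem_union]
  constructor
  · rintro (h | h)
    · exact Or.inr (by simpa using h)
    · exact Or.inl (by simpa using h)
  · rintro (h | h)
    · exact Or.inr (by simpa using h)
    · exact Or.inl (by simpa using h)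

/-- images -/
lemma SA_map {n m : Type} [Finite n] [Finite m] {D : Set (n → ℚ)} (hD : SA (closure (rl D)))
    (p : m → MvPolynomial n ℚ) : SA (closure (rl ((fun x k => eval x (p k)) '' D))) := by
  have h := values_main (ι := Unit) (κ := Empty) (fun _ => D) (fun _ => hD)
    (fun k => rename (fun i => Sum.inl ((), i)) (p k)) 1
  convert h using 2
  ext y
  simp only [rl, Set.mem_setOf_eq, Set.mem_image]
  constructor
  · rintro ⟨_, ⟨x, hx, rfl⟩, rfl⟩
    refine ⟨fun _ => x, fun e => e.elim, fun _ => hx, by simp, fun k => ?_⟩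
    simp only [map_one, div_one, eval_rename]
    rfl
  · rintro ⟨x, u, hx, -, hy⟩
    refine ⟨_, ⟨x (), hx (), rfl⟩, ?_⟩
    funext k
    rw [hy k]
    simp only [map_one, div_one, eval_rename]
    rfl

/-- parametrised sets -/
lemma SA_range {κ m : Type} [Finite κ] [Finite m] (p : m → MvPolynomial κ ℚ) :
    SA (closure (rl (Set.range fun (x : κ → ℚ) k => eval x (p k)))) := by
  have h := values_main (ι := Empty) (κ := κ) (n := Empty) (fun j => j.elim) (fun j => j.elim)
    (fun k => rename (fun i => Sum.inr i) (p k)) 1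
  convert h using 2
  ext y
  simp only [rl, Set.mem_setOf_eq, Set.mem_range]
  constructor
  · rintro ⟨_, ⟨x, rfl⟩, rfl⟩
    refine ⟨fun e => e.elim, x, fun j => j.elim, by simp, fun k => ?_⟩
    simp only [map_one, div_one, eval_rename]
    rfl
  · rintro ⟨x, u, -, -, hy⟩
    refine ⟨_, ⟨u, rfl⟩, ?_⟩
    funext k
    rw [hy k]
    simp only [map_one, div_one, eval_rename]
    rfl

end Pool.Agent.X296.Kum
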