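import Pool.Agent.Y720.MZ.Fib

/-!
# Local ideals of images under proper maps
-/

set_option autoImplicit false

open Filter Topology MvPolynomial

namespace Pool.Agent.X296.Kum

open Pool.Agent.TH729.CV Pool.Agent.Y720.MZ

variable {K : Type*} [Field K] {L : Type*} [NontriviallyNormedField L] [CompleteSpace L]
  [CharZero L] {τ τ' : Type*} [Finite τ] [Finite τ']

lemma continuous_eval₂ (σ : K →+* L) (f : MvPolynomial τ K) :
    Continuous fun z : τ → L => eval₂ σ z f := by
  induction f using MvPolynomial.induction_on with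
  | C a => simpa using continuous_const
  | add p q hp hq =>
    simp only [eval₂_add]
    exact hp.add hq
  | mul_X p i hp =>
    simp only [eval₂_mul, eval₂_X]
    exact hp.mul (continuous_apply i)

lemma eval₂_map (σ : K →+* L) (f : MvPolynomial τ K) (w : τ → K) :
    eval₂ σ (fun i => σ (w i)) f = σ (eval w f) := by
  have := eval₂_comp_left σ (RingHom.id K) w f
  rw [RingHom.comp_id] at this
  exact this.symm

/-- composition -/
noncomputable def comp' (P : τ' → MvPolynomial τ K) : MvPolynomial τ' K →+* MvPolynomial τ K :=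
  (aeval P : MvPolynomial τ' K →ₐ[K] MvPolynomial τ K).toRingHom

lemma eval_comp' (P : τ' → MvPolynomial τ K) (f : MvPolynomial τ' K) (y : τ → K) :
    eval y (comp' P f) = eval (fun k => eval y (P k)) f := by
  have h1 : (aeval y : MvPolynomial τ K →ₐ[K] K).comp (aeval P) =
      aeval fun k => eval y (P k) := by
    apply MvPolynomial.algHom_ext
    intro o
    rw [AlgHom.comp_apply, aeval_X, aeval_X, aeval_eq_eval]
  have h2 := DFunLike.congr_fun h1 f
  rw [AlgHom.comp_apply, aeval_eq_eval, aeval_eq_eval] at h2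
  exact h2

/-- **the local ideals of the image under a proper map** -/
theorem IA_image {σ : K →+* L} {D : Set (τ → K)} {P : τ' → MvPolynomial τ K} {x : τ' → L}
    {C : Set (τ → L)} (hC : IsCompact C) {U : Set (τ' → L)} (hU : U ∈ 𝓝 x)
    (hCU : ∀ y ∈ D, (fun k => σ (eval y (P k))) ∈ U → (fun i => σ (y i)) ∈ C) :
    IA σ ((fun y k => eval y (P k)) '' D) x =
      sInf ((Ideal.comap (comp' P)) '' ((fun u => IA σ D u) '' {u | ∀ k, eval₂ σ u (P k) = x k})) := by
  have hcont : Continuous fun z : τ → L => fun k => eval₂ σ z (P k) :=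
    continuous_pi fun k => continuous_eval₂ σ (P k)
  ext f
  rw [Ideal.mem_sInf]
  constructor
  · rintro hf _ ⟨_, ⟨u, hu, rfl⟩, rfl⟩
    rw [Ideal.mem_comap, mem_IA_iff]
    obtain ⟨V, hV, hfV⟩ := mem_IA_iff.1 hf
    have hux : (fun k => eval₂ σ u (P k)) = x := funext hu
    refine ⟨_, hcont.continuousAt.preimage_mem_nhds (by rw [hux]; exact hV), fun y hy hyV => ?_⟩
    rw [eval_comp']
    refine hfV _ ⟨y, hy, rfl⟩ ?_
    have h1 : (fun k => eval₂ σ (fun i => σ (y i)) (P k)) ∈ V := hyV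
    simpa only [eval₂_map] using h1
  · intro hf
    have h1 : ∀ u : τ → L, ∃ W : Set (τ → L), IsOpen W ∧ ((∀ k, eval₂ σ u (P k) = x k) → u ∈ W ∧
        ∀ y ∈ D, (fun i => σ (y i)) ∈ W → eval (fun k => eval y (P k)) f = 0) := by
      intro u
      by_cases hu : ∀ k, eval₂ σ u (P k) = x k
      · have h2 := hf ⟨_, ⟨u, hu, rfl⟩, rfl⟩
        rw [Ideal.mem_comap, mem_IA_iff] at h2
        obtain ⟨W, hW, h3⟩ := h2
        obtain ⟨W', hWW, hWo, huW⟩ := mem_nhds_iff.1 hW
        refine ⟨W', hWo, fun _ => ⟨huW, fun y hy hyW => ?_⟩⟩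
        have h4 := h3 y hy (hWW hyW)
        rwa [eval_comp'] at h4
      · exact ⟨∅, isOpen_empty, fun h => (hu h).elim⟩
    choose W hWo hW using h1
    set F : Set (τ → L) := {u | ∀ k, eval₂ σ u (P k) = x k} with hF
    set O : Set (τ → L) := ⋃ u ∈ F, W u with hO
    have hOo : IsOpen O := isOpen_biUnion fun u _ => hWo u
    have hFO : F ⊆ O := fun u hu => Set.mem_biUnion hu (hW u hu).1
    have hcomp : IsCompact ((fun z : τ → L => fun k => eval₂ σ z (P k)) '' (C \ O)) :=
      (hC.diff hOo).image hcont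
    have hx : x ∉ (fun z : τ → L => fun k => eval₂ σ z (P k)) '' (C \ O) := by
      rintro ⟨u, ⟨-, hu⟩, hux⟩
      exact hu (hFO fun k => congrFun hux k)
    rw [mem_IA_iff]
    refine ⟨U ∩ ((fun z : τ → L => fun k => eval₂ σ z (P k)) '' (C \ O))ᶜ,
      inter_mem hU (hcomp.isClosed.isOpen_compl.mem_nhds hx), ?_⟩
    rintro _ ⟨y, hy, rfl⟩ ⟨hy1, hy2⟩
    have h2 := hCU y hy hy1
    have h3 : (fun i => σ (y i)) ∈ O := by
      by_contra hcon
      apply hy2
      refine ⟨_, ⟨h2, hcon⟩, ?_⟩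
      funext k
      exact eval₂_map σ (P k) y
    obtain ⟨u, hu, h4⟩ := Set.mem_iUnion₂.1 h3
    exact (hW u hu).2 y hy h4

/-- **finitely many local ideals of the image under a proper map** -/
theorem FA_image {σ : K →+* L} {D : Set (τ → K)} (h : FA σ D) (P : τ' → MvPolynomial τ K)
    (hp : ∀ x : τ' → L, ∃ C : Set (τ → L), IsCompact C ∧ ∃ U ∈ 𝓝 x,
      ∀ y ∈ D, (fun k => σ (eval y (P k))) ∈ U → (fun i => σ (y i)) ∈ C) :
    FA σ ((fun y k => eval y (P k)) '' D) := by
  have h1 : (Set.range fun x : τ → L => IA σ D x).Finite := h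
  have h2 := (h1.finite_subsets).image fun S =>
    sInf ((Ideal.comap (comp' P) : Ideal (MvPolynomial τ K) → Ideal (MvPolynomial τ' K)) '' S)
  refine h2.subset ?_
  rintro _ ⟨x, rfl⟩
  obtain ⟨C, hC, U, hU, hCU⟩ := hp x
  refine ⟨(fun u => IA σ D u) '' {u | ∀ k, eval₂ σ u (P k) = x k}, ?_, ?_⟩
  · rintro _ ⟨u, -, rfl⟩
    exact ⟨u, rfl⟩
  · exact (IA_image hC hU hCU).symm

end Pool.Agent.X296.Kum
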