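import Pool.Agent.X296.Kum.Real2
import Pool.Agent.TH729.CC.Hom

/-!
# The closure of the rational points of double covers of Kummer type: zeros of `A`
-/

set_option autoImplicit false

namespace Pool.Agent.X296.Kum

open Pool.Agent.H581R2 Pool.Agent.TH729.SQ MvPolynomial

variable {n : ℕ}

/-- the rational zeros of a polynomial of degree at most three -/
theorem zeros_SA (A : MvPolynomial (Fin n) ℚ) (hA : A.totalDegree ≤ 3) :
    SA (closure (rl {z : Fin n → ℚ | eval z A = 0})) := by
  have halg : ∀ r : ℚ, IsAlgebraic ℚ (Rat.castHom ℝ r) := fun r => by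
    have := isAlgebraic_algebraMap (R := ℚ) (A := ℝ) r
    simpa using this
  have h2 := Pool.Agent.TH729.CC.affine_SA (Rat.castHom ℝ) halg A hA
  have h3 : {x : Fin n → ℝ | ∃ r : Fin n → ℚ, eval r A = 0 ∧ x = fun i => Rat.castHom ℝ (r i)} =
      rl {z : Fin n → ℚ | eval z A = 0} := by
    ext x
    constructor
    · rintro ⟨r, hr, rfl⟩
      exact ⟨r, hr, rfl⟩
    · rintro ⟨r, hr, rfl⟩
      exact ⟨r, hr, rfl⟩
  rwa [h3] at h2

end Pool.Agent.X296.Kum
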