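import Pool.Agent.X296.Kum.Final
import Pool.Agent.X296.Kum.Sel

/-!
# Free quotients of double covers of Kummer type
-/

set_option autoImplicit false

namespace Pool.Agent.X296.Kum

open Pool.Agent.H581R2 Pool.Agent.TH729.SQ MvPolynomial

/-- the indices of the coordinates `z_i z_j` and `w z_i` -/
abbrev QI (r : ℕ) : Type := (Fin r × Fin r) ⊕ Fin r

variable {r : ℕ}

/-- the rational points of the affine quotient -/
def OnQ (a b c : Fin r → ℚ) (p : QI r → ℚ) : Prop :=
  (∀ i j k l, p (Sum.inl (i, j)) * p (Sum.inl (k, l)) = p (Sum.inl (i, k)) * p (Sum.inl (j, l))) ∧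
  (∀ i j, p (Sum.inl (i, j)) = p (Sum.inl (j, i))) ∧
  (∀ i j k, p (Sum.inr i) * p (Sum.inl (j, k)) = p (Sum.inr j) * p (Sum.inl (i, k))) ∧
  ∀ i j, p (Sum.inr i) * p (Sum.inr j) = p (Sum.inl (i, j)) *
    ∏ k, (a k * p (Sum.inl (k, k)) ^ 2 + b k * p (Sum.inl (k, k)) + c k)

/-- the image of a point of the twist -/
def img (d : ℚ) (u : Fin (r + 1) → ℚ) : QI r → ℚ :=
  Sum.elim (fun x => d * (u x.1.succ * u x.2.succ)) fun i => d * (u 0 * u i.succ)

/-- the same as a polynomial map -/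
noncomputable def imgp (d : ℚ) : QI r → MvPolynomial (Fin (r + 1)) ℚ :=
  Sum.elim (fun x => C d * (X x.1.succ * X x.2.succ)) fun i => C d * (X 0 * X i.succ)

lemma eval_imgp (d : ℚ) (u : Fin (r + 1) → ℚ) : (fun k => eval u (imgp (r := r) d k)) = img d u := by
  funext k
  rcases k with ⟨i, j⟩ | i
  · simp [imgp, img]
  · simp [imgp, img]

/-- the quartic polynomial of the twist -/
noncomputable def qpd (a b c d : ℚ) : Polynomial ℚ :=
  Polynomial.C (a * d ^ 2) * Polynomial.X ^ 4 + Polynomial.C (b * d) * Polynomial.X ^ 2 +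
    Polynomial.C c

lemma qpd_eval (a b c d z : ℚ) : (qpd a b c d).eval z = qtw a b c d z 1 := by
  simp only [qpd, qtw, Polynomial.eval_add, Polynomial.eval_mul, Polynomial.eval_C,
    Polynomial.eval_pow, Polynomial.eval_X]
  ring

lemma qpd_natDegree {a b c d : ℚ} (ha : a ≠ 0) (hd : d ≠ 0) : (qpd a b c d).natDegree = 4 := by
  unfold qpd
  have h : a * d ^ 2 ≠ 0 := mul_ne_zero ha (pow_ne_zero 2 hd)
  compute_degree!

lemma sep_biquad {A B C₀ : ℚ} (hC : C₀ ≠ 0) (hD : B ^ 2 - 4 * A * C₀ ≠ 0) :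
    (Polynomial.C A * Polynomial.X ^ 4 + Polynomial.C B * Polynomial.X ^ 2 +
      Polynomial.C C₀ : Polynomial ℚ).Separable := by
  set D := B ^ 2 - 4 * A * C₀ with hDd
  have hCD : C₀ * D ≠ 0 := mul_ne_zero hC hD
  refine ⟨Polynomial.C (C₀ * D)⁻¹ * (Polynomial.C D + Polynomial.C (2 * A * B) * Polynomial.X ^ 2),
    Polynomial.C (C₀ * D)⁻¹ * (-(Polynomial.C (1 / 4) * Polynomial.X *
      (Polynomial.C D + Polynomial.C (2 * A * B) * Polynomial.X ^ 2 + Polynomial.C (B ^ 2)))), ?_⟩
  have h1 : Polynomial.C (C₀ * D)⁻¹ * Polynomial.C (C₀ * D) = (1 : Polynomial ℚ) := by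
    rw [← map_mul, inv_mul_cancel₀ hCD, map_one]
  rw [← h1]
  have h2 : Polynomial.derivative (Polynomial.C A * Polynomial.X ^ 4 +
      Polynomial.C B * Polynomial.X ^ 2 + Polynomial.C C₀ : Polynomial ℚ) =
      Polynomial.C (4 * A) * Polynomial.X ^ 3 + Polynomial.C (2 * B) * Polynomial.X := by
    apply Polynomial.funext
    intro x
    simp only [Polynomial.derivative_add, Polynomial.derivative_C_mul, Polynomial.derivative_C,
      Polynomial.derivative_X_pow, Polynomial.eval_add, Polynomial.eval_mul, Polynomial.eval_C,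
      Polynomial.eval_pow, Polynomial.eval_X, Polynomial.eval_zero]
    norm_num
    ring
  rw [h2]
  have h3 : (Polynomial.C D + Polynomial.C (2 * A * B) * Polynomial.X ^ 2) *
      (Polynomial.C A * Polynomial.X ^ 4 + Polynomial.C B * Polynomial.X ^ 2 + Polynomial.C C₀) +
      (-(Polynomial.C (1 / 4) * Polynomial.X *
      (Polynomial.C D + Polynomial.C (2 * A * B) * Polynomial.X ^ 2 + Polynomial.C (B ^ 2)))) *
      (Polynomial.C (4 * A) * Polynomial.X ^ 3 + Polynomial.C (2 * B) * Polynomial.X) =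
      (Polynomial.C (C₀ * D) : Polynomial ℚ) := by
    apply Polynomial.funext
    intro x
    simp only [Polynomial.eval_add, Polynomial.eval_mul, Polynomial.eval_C, Polynomial.eval_pow,
      Polynomial.eval_X, Polynomial.eval_neg]
    rw [hDd]
    ring
  rw [← h3]
  ring

lemma qpd_sep {a b c d : ℚ} (hc : c ≠ 0) (hd : d ≠ 0) (hD : b ^ 2 - 4 * a * c ≠ 0) :
    (qpd a b c d).Separable := by
  refine sep_biquad hc ?_
  have : (b * d) ^ 2 - 4 * (a * d ^ 2) * c = d ^ 2 * (b ^ 2 - 4 * a * c) := by ring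
  rw [this]
  exact mul_ne_zero (pow_ne_zero 2 hd) hD

/-- the twist -/
noncomputable def ftw (a b c : Fin r → ℚ) (d : ℚ) : MvPolynomial (Fin r) ℚ :=
  kpoly (C d⁻¹) Finset.univ fun i => qpd (a i) (b i) (c i) d

lemma mem_ftw {a b c : Fin r → ℚ} {d : ℚ} (hd : d ≠ 0) (u : Fin (r + 1) → ℚ) :
    u ∈ cover (ftw a b c d) ↔
      d * u 0 ^ 2 = ∏ i, qtw (a i) (b i) (c i) d (u i.succ) 1 := by
  change u 0 ^ 2 = eval (fun k => u k.succ) (kpoly _ _ _) ↔ _
  rw [eval_kpoly, eval_C]
  simp only [qpd_eval]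
  constructor
  · intro h
    rw [h, ← mul_assoc, mul_inv_cancel₀ hd, one_mul]
  · intro h
    rw [← h, ← mul_assoc, inv_mul_cancel₀ hd, one_mul]

lemma img_onQ {a b c : Fin r → ℚ} {d : ℚ} {u : Fin (r + 1) → ℚ}
    (h : d * u 0 ^ 2 = ∏ i, qtw (a i) (b i) (c i) d (u i.succ) 1) : OnQ a b c (img d u) := by
  refine ⟨fun i j k l => ?_, fun i j => ?_, fun i j k => ?_, fun i j => ?_⟩
  · simp only [img, Sum.elim_inl]; ring
  · simp only [img, Sum.elim_inl]; ring
  · simp only [img, Sum.elim_inl, Sum.elim_inr]; ring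
  · simp only [img, Sum.elim_inl, Sum.elim_inr]
    have e : ∏ k, (a k * (d * (u k.succ * u k.succ)) ^ 2 + b k * (d * (u k.succ * u k.succ)) +
        c k) = d * u 0 ^ 2 := by
      rw [h]
      refine Finset.prod_congr rfl fun k _ => ?_
      unfold qtw
      ring
    rw [e]
    ring

lemma exists_img {a b c : Fin r → ℚ} {p : QI r → ℚ} (hp : OnQ a b c p) (h0 : p ≠ 0) :
    ∃ (d : ℚ) (u : Fin (r + 1) → ℚ), d ≠ 0 ∧ p = img d u ∧
      d * u 0 ^ 2 = ∏ i, qtw (a i) (b i) (c i) d (u i.succ) 1 := by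
  obtain ⟨h1, h2, h3, h4⟩ := hp
  have hi : ∃ i, p (Sum.inl (i, i)) ≠ 0 := by
    by_contra hcon
    push Not at hcon
    apply h0
    have hv : ∀ i j, p (Sum.inl (i, j)) = 0 := by
      intro i j
      have := h1 i j i j
      rw [hcon i, zero_mul] at this
      exact mul_self_eq_zero.1 this
    funext k
    rcases k with ⟨i, j⟩ | i
    · exact hv i j
    · have := h4 i i
      rw [hcon i, zero_mul] at this
      exact mul_self_eq_zero.1 this
  obtain ⟨i, hi⟩ := hi
  set e := p (Sum.inl (i, i)) with he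
  refine ⟨e, Fin.cons (p (Sum.inr i) / e) fun j => p (Sum.inl (i, j)) / e, hi, ?_, ?_⟩
  · funext k
    rcases k with ⟨j, l⟩ | j
    · simp only [img, Sum.elim_inl, Fin.cons_succ]
      have := h1 i i j l
      field_simp
      rw [← he] at this
      linear_combination this
    · simp only [img, Sum.elim_inr, Fin.cons_zero, Fin.cons_succ]
      have := h3 i j i
      have h2' := h2 j i
      field_simp
      rw [he]
      rw [h2'] at this
      linear_combination -this
  · simp only [Fin.cons_zero, Fin.cons_succ]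
    have h5 := h4 i i
    have e1 : ∀ k, qtw (a k) (b k) (c k) e (p (Sum.inl (i, k)) / e) 1 =
        a k * p (Sum.inl (k, k)) ^ 2 + b k * p (Sum.inl (k, k)) + c k := by
      intro k
      have h6 : e * (p (Sum.inl (i, k)) / e) ^ 2 = p (Sum.inl (k, k)) := by
        have := h1 i i k k
        have h7 : e * (p (Sum.inl (i, k)) / e) ^ 2 = p (Sum.inl (i, k)) * p (Sum.inl (i, k)) / e := by
          field_simp
        rw [h7, ← this, ← he]
        field_simp
      unfold qtw
      rw [h6]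
      ring
    simp only [e1]
    rw [← he] at h5
    have h8 : e * (p (Sum.inr i) / e) ^ 2 = p (Sum.inr i) * p (Sum.inr i) / e := by
      field_simp
    rw [h8, h5]
    field_simp

/-- the points of the quotient -/
theorem onQ_eq {a b c : Fin r → ℚ} (ha : ∀ i, a i ≠ 0) (hc : ∀ i, c i ≠ 0) :
    ∃ D : Set ℚ, D.Finite ∧ 0 ∉ D ∧ {p | OnQ a b c p} =
      {0} ∪ ⋃ d ∈ D, (fun u k => eval u (imgp (r := r) d k)) '' cover (ftw a b c d) := by
  obtain ⟨D, hD, hD0, h⟩ := exists_twists (K := ℚ) (b := b) ha hc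
  refine ⟨D, hD, hD0, ?_⟩
  ext p
  simp only [Set.mem_union, Set.mem_setOf_eq, Set.mem_singleton_iff, Set.mem_iUnion, exists_prop,
    Set.mem_image]
  constructor
  · intro hp
    by_cases h0 : p = 0
    · exact Or.inl h0
    · right
      obtain ⟨d, u, hd, rfl, hu⟩ := exists_img hp h0
      obtain ⟨e, he, s, hs, hde⟩ := h d (u 0) (fun i => u i.succ) (fun _ => 1) hd
        (fun i => Or.inr one_ne_zero) hu
      have he0 : e ≠ 0 := fun h0 => hD0 (h0 ▸ he)
      refine ⟨e, he, fun k => s * u k, ?_, ?_⟩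
      · rw [mem_ftw he0]
        have e1 : ∀ i, qtw (a i) (b i) (c i) e (s * u i.succ) 1 =
            qtw (a i) (b i) (c i) d (u i.succ) 1 := by
          intro i
          unfold qtw
          rw [hde]
          ring
        simp only [e1]
        rw [← hu, hde]
        ring
      · rw [eval_imgp]
        funext k
        rcases k with ⟨i, j⟩ | i
        · simp only [img, Sum.elim_inl]
          rw [hde]
          ring
        · simp only [img, Sum.elim_inr]
          rw [hde]
          ring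
  · rintro (rfl | ⟨d, hd, u, hu, rfl⟩)
    · refine ⟨fun i j k l => ?_, fun i j => ?_, fun i j k => ?_, fun i j => ?_⟩ <;> simp
    · rw [eval_imgp]
      exact img_onQ ((mem_ftw (fun h0 => hD0 (h0 ▸ hd)) u).1 hu)

/-- **The closure of the set of the rational points of the quotient.** -/
theorem onQ_SA {a b c : Fin r → ℚ} (ha : ∀ i, a i ≠ 0) (hc : ∀ i, c i ≠ 0)
    (hD : ∀ i, b i ^ 2 - 4 * a i * c i ≠ 0) : SA (closure (rl {p | OnQ a b c p})) := by
  obtain ⟨D, hDf, hD0, h⟩ := onQ_eq (b := b) ha hc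
  rw [h]
  refine SA_union ?_ (SA_biUnion hDf fun d hd => SA_map ?_ _)
  · have := SA_range (κ := Empty) (m := QI r) fun _ => 0
    convert this using 3
    ext x
    simp only [Set.mem_singleton_iff, Set.mem_range, map_zero]
    constructor
    · rintro rfl
      exact ⟨fun e => e.elim, rfl⟩
    · rintro ⟨-, rfl⟩
      rfl
  · have hd0 : d ≠ 0 := fun h0 => hD0 (h0 ▸ hd)
    refine cover_SA ⟨fun i _ => qpd_sep (hc i) hd0 (hD i), fun i _ => ?_, fun i _ => ?_,
      fun k => ?_, fun i _ => ?_⟩ (zeros_SA _ ?_)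
    · rw [qpd_natDegree (ha i) hd0]; norm_num
    · rw [qpd_natDegree (ha i) hd0]
    · rw [degreeOf_C]; norm_num
    · rw [degreeOf_C]
    · rw [totalDegree_C]; norm_num

end Pool.Agent.X296.Kum
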