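import Pool.Agent.X296.Kum.Twist
import Pool.Agent.X296.Kum.SAtools

/-!
# The closure of the rational points of double covers of Kummer type
-/

set_option autoImplicit false

namespace Pool.Agent.X296.Kum

open Pool.Agent.H581R2 Pool.Agent.TH729.SQ Pool.Agent.Y718.X MvPolynomial

variable {n : ℕ}

/-- The polynomial `A * ∏ q i (X i)`, the product over `i ∈ I`. -/
noncomputable def kpoly (A : MvPolynomial (Fin n) ℚ) (I : Finset (Fin n))
    (q : Fin n → Polynomial ℚ) : MvPolynomial (Fin n) ℚ :=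
  A * ∏ i ∈ I, Polynomial.aeval (X i : MvPolynomial (Fin n) ℚ) (q i)

/-- The polynomials `q i`, `i ∈ I`, are separable of degree three or four, and `A` has degree at
most two in each variable and does not depend on the variables `X i` with `i ∈ I`. -/
structure IsKummer (A : MvPolynomial (Fin n) ℚ) (I : Finset (Fin n)) (q : Fin n → Polynomial ℚ) :
    Prop where
  sep : ∀ i ∈ I, (q i).Separable
  three : ∀ i ∈ I, 3 ≤ (q i).natDegree
  four : ∀ i ∈ I, (q i).natDegree ≤ 4
  quad : ∀ k, A.degreeOf k ≤ 2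
  indep : ∀ i ∈ I, A.degreeOf i = 0

/-- the rational points `(w, z)` of `w² = f(z)` -/
def cover (f : MvPolynomial (Fin n) ℚ) : Set (Fin (n + 1) → ℚ) :=
  {u | u 0 ^ 2 = eval (fun k => u k.succ) f}

section sub

variable (A : MvPolynomial (Fin n) ℚ) (I : Finset (Fin n)) (q : Fin n → Polynomial ℚ)
  (τ : Fin n → Option ℚ)

/-- the factors, with some variables specialised -/
noncomputable def fac (i : Fin n) : MvPolynomial (Fin n) ℚ :=
  (τ i).elim (Polynomial.aeval (X i : MvPolynomial (Fin n) ℚ) (q i))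
    fun t => C ((q i).eval t)

/-- the polynomial with some variables specialised -/
noncomputable def fsub : MvPolynomial (Fin n) ℚ := A * ∏ i ∈ I, fac q τ i

/-- the specialised point -/
def spz (z : Fin n → ℚ) (i : Fin n) : ℚ := (τ i).getD (z i)

lemma eval_aeval (z : Fin n → ℚ) (i : Fin n) (p : Polynomial ℚ) :
    eval z (Polynomial.aeval (X i : MvPolynomial (Fin n) ℚ) p) = p.eval (z i) := by
  have h := Polynomial.aeval_algHom_apply (MvPolynomial.aeval z : MvPolynomial (Fin n) ℚ →ₐ[ℚ] ℚ)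
    (X i) p
  rw [MvPolynomial.aeval_X] at h
  rw [Polynomial.coe_aeval_eq_eval] at h
  rw [h]
  rfl

lemma eval_fac (z : Fin n → ℚ) (i : Fin n) :
    eval z (fac q τ i) = (q i).eval (spz τ z i) := by
  unfold fac spz
  cases h : τ i with
  | none => simp [eval_aeval]
  | some t => simp

lemma eval_fsub (z : Fin n → ℚ) :
    eval z (fsub A I q τ) = eval z A * ∏ i ∈ I, (q i).eval (spz τ z i) := by
  rw [fsub, map_mul, map_prod]
  simp only [eval_fac]

lemma eval_kpoly (z : Fin n → ℚ) :
    eval z (kpoly A I q) = eval z A * ∏ i ∈ I, (q i).eval (z i) := by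
  rw [kpoly, map_mul, map_prod]
  simp only [eval_aeval]

variable {A I q}

lemma eval_congr_indep {z z' : Fin n → ℚ} (h : ∀ i, A.degreeOf i ≠ 0 → z i = z' i) :
    eval z A = eval z' A := by
  refine MvPolynomial.eval₂Hom_congr' rfl (fun i hi _ => h i ?_) rfl
  intro h0
  rw [MvPolynomial.mem_vars] at hi
  obtain ⟨d, hd, hi⟩ := hi
  have h1 := MvPolynomial.degreeOf_le_iff.1 h0.le d hd
  exact (Finsupp.mem_support_iff.1 hi) (by omega)

lemma lk_mul' (f g : MvPolynomial (Fin n) ℚ) (z u : Fin n → ℚ) :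
    lk (f * g) z u = lk f z u * lk g z u := by
  simp [lk]

lemma lk_prod' {ι : Type*} (s : Finset ι) (f : ι → MvPolynomial (Fin n) ℚ) (z u : Fin n → ℚ) :
    lk (∏ i ∈ s, f i) z u = ∏ i ∈ s, lk (f i) z u := by
  simp [lk]

lemma lk_aeval (z u : Fin n → ℚ) (i : Fin n) (p : Polynomial ℚ) :
    lk (Polynomial.aeval (X i : MvPolynomial (Fin n) ℚ) p) z u =
      p.comp (Polynomial.C (z i) + Polynomial.C (u i) * Polynomial.X) := by
  unfold lk
  rw [← Polynomial.aeval_algHom_apply, MvPolynomial.aeval_X]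
  rfl

lemma lk_fac {k i : Fin n} (h : i ≠ k ∨ τ i ≠ none) (z : Fin n → ℚ) :
    lk (fac q τ i) z (Pi.single k 1) = Polynomial.C (eval z (fac q τ i)) := by
  rw [eval_fac]
  unfold fac spz
  cases hτ : τ i with
  | none =>
    rcases h with h | h
    · simp only [Option.elim_none, Option.getD_none]
      rw [lk_aeval, Pi.single_eq_of_ne h]
      simp
    · exact absurd hτ h
  | some t => simp [lk]

lemma lk_A {k : Fin n} (h : A.degreeOf k = 0) (z : Fin n → ℚ) :
    lk A z (Pi.single k 1) = Polynomial.C (eval z A) := by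
  have h1 := lk_natDegree A z k
  rw [h] at h1
  rw [Polynomial.eq_C_of_natDegree_le_zero h1, lk_zero]

/-- the other factors -/
noncomputable def oth (A : MvPolynomial (Fin n) ℚ) (I : Finset (Fin n)) (q : Fin n → Polynomial ℚ)
    (τ : Fin n → Option ℚ) (k : Fin n) (z : Fin n → ℚ) : ℚ :=
  eval z A * ∏ i ∈ I.erase k, eval z (fac q τ i)

lemma lk_fsub (hK : IsKummer A I q) {k : Fin n} (hk : k ∈ I) (hτ : τ k = none) (z : Fin n → ℚ) :
    lk (fsub A I q τ) z (Pi.single k 1) =
      Polynomial.C (oth A I q τ k z) * (q k).comp (Polynomial.C (z k) + Polynomial.X) := by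
  rw [fsub, lk_mul', lk_prod', ← Finset.mul_prod_erase _ _ hk, lk_A (hK.indep k hk)]
  have h1 : ∏ i ∈ I.erase k, lk (fac q τ i) z (Pi.single k 1) =
      Polynomial.C (∏ i ∈ I.erase k, eval z (fac q τ i)) := by
    rw [map_prod]
    exact Finset.prod_congr rfl fun i hi => lk_fac τ (Or.inl (Finset.ne_of_mem_erase hi)) z
  have h2 : lk (fac q τ k) z (Pi.single k 1) =
      (q k).comp (Polynomial.C (z k) + Polynomial.X) := by
    unfold fac
    rw [hτ, Option.elim_none, lk_aeval, Pi.single_eq_same, map_one, one_mul]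
  rw [h1, h2, oth, map_mul]
  ring


lemma eval_oth {k : Fin n} (hk : k ∈ I) (hτ : τ k = none) (z : Fin n → ℚ) :
    eval z (fsub A I q τ) = oth A I q τ k z * (q k).eval (z k) := by
  rw [fsub, map_mul, map_prod, ← Finset.mul_prod_erase _ _ hk, oth, eval_fac]
  have : spz τ z k = z k := by simp [spz, hτ]
  rw [this]
  ring

lemma degLe_two (hK : IsKummer A I q) {k : Fin n} (h : k ∉ I ∨ τ k ≠ none) :
    DegLe (fsub A I q τ) (Pi.single k 1) 2 := by
  intro z
  rw [fsub, lk_mul', lk_prod']
  have h1 : ∏ i ∈ I, lk (fac q τ i) z (Pi.single k 1) =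
      Polynomial.C (∏ i ∈ I, eval z (fac q τ i)) := by
    rw [map_prod]
    refine Finset.prod_congr rfl fun i hi => lk_fac τ ?_ z
    rcases h with h | h
    · exact Or.inl fun e => h (e ▸ hi)
    · by_cases e : i = k
      · exact Or.inr (e ▸ h)
      · exact Or.inl e
  rw [h1]
  exact (Polynomial.natDegree_mul_C_le _ _).trans ((lk_natDegree A z k).trans (hK.quad k))

lemma degLe_four (hK : IsKummer A I q) {k : Fin n} (hk : k ∈ I) (hτ : τ k = none) :
    DegLe (fsub A I q τ) (Pi.single k 1) 4 := by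
  intro z
  rw [lk_fsub τ hK hk hτ]
  refine (Polynomial.natDegree_C_mul_le _ _).trans ?_
  rw [Polynomial.natDegree_comp]
  have h1 : (Polynomial.C (z k) + Polynomial.X : Polynomial ℚ).natDegree ≤ 1 :=
    (Polynomial.natDegree_add_le _ _).trans (by simp)
  calc (q k).natDegree * (Polynomial.C (z k) + Polynomial.X : Polynomial ℚ).natDegree
      ≤ 4 * 1 := Nat.mul_le_mul (hK.four k hk) h1
    _ = 4 := rfl

end sub

end Pool.Agent.X296.Kum
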