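import Pool.Agent.X296.Kum.Real

/-!
# The closure of the rational points of double covers of Kummer type: the theorem
-/

set_option autoImplicit false

namespace Pool.Agent.X296.Kum

open Pool.Agent.H581R2 Pool.Agent.TH729.SQ Pool.Agent.Y718.X MvPolynomial

variable {n : ℕ} {A : MvPolynomial (Fin n) ℚ} {I : Finset (Fin n)} {q : Fin n → Polynomial ℚ}

/-- the sets `T i` contain the abscissae of finite order -/
def Exc (I : Finset (Fin n)) (q : Fin n → Polynomial ℚ) (T : Fin n → Set ℚ) : Prop :=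
  ∀ i ∈ I, ∀ t₀ ∉ T i, (q i).eval t₀ ≠ 0 ∧ ∀ C' w : ℚ, w ≠ 0 → w ^ 2 = C' * (q i).eval t₀ →
    Inf (Polynomial.C C' * (q i).comp (Polynomial.C t₀ + Polynomial.X))

theorem nx_of (τ : Fin n → Option ℚ) (hK : IsKummer A I q) {T : Fin n → Set ℚ} (hT : Exc I q T)
    {z : Fin n → ℚ} {w : ℚ} (hw : w ≠ 0) (h : w ^ 2 = eval z (fsub A I q τ))
    (hz : ∀ i ∈ I, τ i = none → z i ∉ T i) : NX (fsub A I q τ) z := by
  refine ⟨fun k => Pi.single k 1, ?_, fun k => ?_⟩
  · have := (Pi.basisFun ℚ (Fin n)).linearIndependent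
    convert this using 1
    funext k
    simp
  · by_cases hk : k ∈ I ∧ τ k = none
    · refine ⟨degLe_four τ hK hk.1 hk.2, Or.inr ⟨0, fun _ _ => rfl, ?_⟩⟩
      have e : z + ∑ j, (0 : Fin n → ℚ) j • (Pi.single j 1 : Fin n → ℚ) = z := by simp
      rw [e, lk_fsub τ hK hk.1 hk.2]
      exact (hT k hk.1 (z k) (hz k hk.1 hk.2)).2 _ w hw (by rw [h, eval_oth τ hk.1 hk.2])
    · have h1 : k ∉ I ∨ τ k ≠ none := by tauto
      have h2 := degLe_two τ hK h1
      exact ⟨fun z => (h2 z).trans (by norm_num), Or.inl h2⟩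

/-- the polynomial map which specialises some of the coordinates -/
noncomputable def mp (τ : Fin n → Option ℚ) : Fin (n + 1) → MvPolynomial (Fin (n + 1)) ℚ :=
  Fin.cases (X 0) fun i => (τ i).elim (X i.succ) C

lemma eval_mp_zero (τ : Fin n → Option ℚ) (u : Fin (n + 1) → ℚ) : eval u (mp τ 0) = u 0 := by
  simp [mp]

lemma eval_mp_succ (τ : Fin n → Option ℚ) (u : Fin (n + 1) → ℚ) (i : Fin n) :
    eval u (mp τ i.succ) = spz τ (fun k => u k.succ) i := by
  simp only [mp, Fin.cases_succ, spz]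
  cases τ i <;> simp

theorem cover_ne (hK : IsKummer A I q) {T : Fin n → Set ℚ} (hT : Exc I q T)
    (hT0 : ∀ i, i ∉ I → T i = ∅) :
    {u ∈ cover (kpoly A I q) | u 0 ≠ 0} =
      ⋃ τ ∈ {τ : Fin n → Option ℚ | ∀ i, τ i ∈ insert none (some '' T i)},
        (fun u k => eval u (mp τ k)) '' dcN (fsub A I q τ) := by
  classical
  ext u
  simp only [Set.mem_iUnion, exists_prop, Set.mem_setOf_eq]
  constructor
  · rintro ⟨hu, h0⟩
    set τ : Fin n → Option ℚ := fun i => if u i.succ ∈ T i then some (u i.succ) else none with hτ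
    have hsp : spz τ (fun k => u k.succ) = fun k => u k.succ := by
      funext i
      simp only [spz, hτ]
      split_ifs <;> rfl
    refine ⟨τ, fun i => ?_, u, ?_, ?_⟩
    · simp only [hτ]
      split_ifs with h
      · exact Set.mem_insert_of_mem _ ⟨_, h, rfl⟩
      · exact Set.mem_insert _ _
    · have h1 : u 0 ^ 2 = eval (fun k => u k.succ) (fsub A I q τ) := by
        rw [eval_fsub, hsp]
        exact hu.trans (eval_kpoly A I q _)
      refine ⟨h0, h1, nx_of τ hK hT h0 h1 fun i hi hi' hmem => ?_⟩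
      simp only [hτ] at hi'
      rw [if_pos hmem] at hi'
      exact absurd hi' (by simp)
    · funext k
      refine Fin.cases ?_ (fun i => ?_) k
      · exact eval_mp_zero τ u
      · exact (eval_mp_succ τ u i).trans (congrFun hsp i)
  · rintro ⟨τ, hτ, v, ⟨hv0, hv, -⟩, rfl⟩
    refine ⟨?_, ?_⟩
    · change (eval v (mp τ 0)) ^ 2 = eval (fun k => eval v (mp τ k.succ)) (kpoly A I q)
      rw [eval_mp_zero, eval_kpoly, hv, eval_fsub]
      have e : (fun k => eval v (mp τ k.succ)) = spz τ fun k => v k.succ := by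
        funext k
        exact eval_mp_succ τ v k
      have e2 : ∀ i, eval v (mp τ i.succ) = spz τ (fun k => v k.succ) i := fun i =>
        eval_mp_succ τ v i
      rw [e]
      simp only [e2]
      congr 1
      refine eval_congr_indep fun i hi => ?_
      have h1 : i ∉ I := fun h => hi (hK.indep i h)
      have h2 := hτ i
      rw [hT0 i h1, Set.image_empty] at h2
      have h3 : τ i = none := by simpa using h2
      simp [spz, h3]
    · change eval v (mp τ 0) ≠ 0
      rw [eval_mp_zero]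
      exact hv0

/-- the points with `w = 0` -/
theorem cover_eq (hK : IsKummer A I q) :
    {u ∈ cover (kpoly A I q) | u 0 = 0} =
      (fun (z : Fin n → ℚ) (k : Fin (n + 1)) => eval z
        ((Fin.cases 0 X : Fin (n + 1) → MvPolynomial (Fin n) ℚ) k)) '' {z | eval z A = 0} ∪
      ⋃ r ∈ {r : Fin n × ℚ | r.1 ∈ I ∧ (q r.1).eval r.2 = 0},
        Set.range fun (z : Fin n → ℚ) (k : Fin (n + 1)) => eval z
          ((Fin.cases 0 (fun j => if j = r.1 then C r.2 else X j) :
            Fin (n + 1) → MvPolynomial (Fin n) ℚ) k) := by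
  classical
  ext u
  simp only [Set.mem_union, Set.mem_iUnion, exists_prop, Set.mem_setOf_eq]
  constructor
  · rintro ⟨hu, h0⟩
    have h1 : eval (fun k => u k.succ) A * ∏ i ∈ I, (q i).eval (u i.succ) = 0 := by
      rw [← eval_kpoly, ← (show _ = _ from hu), h0]
      norm_num
    rcases mul_eq_zero.1 h1 with h2 | h2
    · left
      refine ⟨fun k => u k.succ, h2, ?_⟩
      funext k
      refine Fin.cases ?_ (fun i => ?_) k
      · simp [h0]
      · simp
    · right
      obtain ⟨i, hi, hi'⟩ := Finset.prod_eq_zero_iff.1 h2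
      refine ⟨(i, u i.succ), ⟨hi, hi'⟩, fun k => u k.succ, ?_⟩
      funext k
      refine Fin.cases ?_ (fun j => ?_) k
      · simp [h0]
      · simp only [Fin.cases_succ]
        split_ifs with h
        · rw [h]; simp
        · simp
  · rintro (⟨z, hz, rfl⟩ | ⟨⟨i, r⟩, ⟨hi, hr⟩, z, rfl⟩)
    · refine ⟨?_, by simp⟩
      change (eval z _) ^ 2 = eval _ (kpoly A I q)
      rw [eval_kpoly]
      simp only [Fin.cases_zero, map_zero, Fin.cases_succ, eval_X]
      have : eval (fun k => z k) A = 0 := hz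
      rw [this]
      norm_num
    · refine ⟨?_, by simp⟩
      change (eval z _) ^ 2 = eval _ (kpoly A I q)
      rw [eval_kpoly]
      simp only [Fin.cases_zero, map_zero, Fin.cases_succ]
      rw [Finset.prod_eq_zero hi]
      · norm_num
      · simp only [if_true, eval_C]
        exact hr

/-- **The closure of the set of the rational points.** -/
theorem cover_SA (hK : IsKummer A I q) (hA : SA (closure (rl {z : Fin n → ℚ | eval z A = 0}))) :
    SA (closure (rl (cover (kpoly A I q)))) := by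
  classical
  have hex : ∀ i, ∃ T : Set ℚ, T.Finite ∧ (i ∈ I → ∀ t₀ ∉ T, (q i).eval t₀ ≠ 0 ∧
      ∀ C' w : ℚ, w ≠ 0 → w ^ 2 = C' * (q i).eval t₀ →
      Inf (Polynomial.C C' * (q i).comp (Polynomial.C t₀ + Polynomial.X))) ∧ (i ∉ I → T = ∅) := by
    intro i
    by_cases hi : i ∈ I
    · obtain ⟨T, h1, h2⟩ := twist_inf (hK.sep i hi) (hK.three i hi) (hK.four i hi)
      exact ⟨T, h1, fun _ => h2, fun h => absurd hi h⟩
    · exact ⟨∅, Set.finite_empty, fun h => absurd h hi, fun _ => rfl⟩
  choose T hTf hT hT0 using hex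
  have h1 : SA (closure (rl {u ∈ cover (kpoly A I q) | u 0 ≠ 0})) := by
    rw [cover_ne hK (T := T) hT hT0]
    refine SA_biUnion ?_ fun τ _ => SA_map (dcN_SA _) _
    exact Set.Finite.pi' fun i => ((hTf i).image _).insert _
  have h2 : SA (closure (rl {u ∈ cover (kpoly A I q) | u 0 = 0})) := by
    rw [cover_eq hK]
    refine SA_union (SA_map hA _) (SA_biUnion ?_ fun r _ => SA_range _)
    have : {r : Fin n × ℚ | r.1 ∈ I ∧ (q r.1).eval r.2 = 0} ⊆
        ⋃ i ∈ (I : Set (Fin n)), (fun t => (i, t)) '' {t | (q i).IsRoot t} := by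
      rintro ⟨i, t⟩ ⟨hi, ht⟩
      exact Set.mem_biUnion hi ⟨t, ht, rfl⟩
    refine Set.Finite.subset (Set.Finite.biUnion I.finite_toSet fun i hi => ?_) this
    refine Set.Finite.image _ (Polynomial.finite_setOf_isRoot ?_)
    intro h0
    have := hK.three i hi
    rw [h0, Polynomial.natDegree_zero] at this
    omega
  have e : cover (kpoly A I q) = {u ∈ cover (kpoly A I q) | u 0 ≠ 0} ∪
      {u ∈ cover (kpoly A I q) | u 0 = 0} := by
    ext u
    simp only [Set.mem_union, Set.mem_setOf_eq]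
    tauto
  rw [e]
  exact SA_union h1 h2

end Pool.Agent.X296.Kum
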