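import Pool.Agent.Y720.MZ.Kum4
import Pool.Agent.X296.Kum.FinMap

/-!
# Affine charts of double covers of Kummer type
-/

set_option autoImplicit false

open Filter Topology MvPolynomial Matrix

namespace Pool.Agent.X296.Kum

open Pool.Agent.TH729.CV Pool.Agent.Y720.MZ

variable {K : Type*} [Field K] {r : ℕ}

/-- the affine chart of the double cover `w² = A q₁(z₁) ⋯ q_r(z_r)` -/
def AK (A : K) (q : Fin r → Fin 5 → K) : Set (Fin (r + 1) → K) :=
  {u | u 0 ^ 2 = A * ∏ i, qf (q i) ![1, u i.succ]}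

/-- the lift of an affine point -/
def lft {R : Type*} [One R] (u : Fin (r + 1) → R) : Option (Fin 1 ⊕ (Fin r × Fin 2)) → R :=
  ptN (u 0) (fun _ => 1) fun j => ![1, u j.succ]

/-- the denominators -/
def dn {R : Type*} [CommRing R] (y : Option (Fin 1 ⊕ (Fin r × Fin 2)) → R) : R :=
  y (some (Sum.inl 0)) * ∏ j, y (some (Sum.inr (j, 0)))

/-- the affine point -/
def aff {R : Type*} [Field R] (y : Option (Fin 1 ⊕ (Fin r × Fin 2)) → R) : Fin (r + 1) → R :=
  Fin.cons (y none / (y (some (Sum.inl 0)) * (∏ j, y (some (Sum.inr (j, 0)))) ^ 2))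
    fun j => y (some (Sum.inr (j, 1))) / y (some (Sum.inr (j, 0)))

lemma aff_lft {R : Type*} [Field R] (u : Fin (r + 1) → R) : aff (lft u) = u := by
  funext i
  refine Fin.cases ?_ (fun i => ?_) i
  · simp [aff, lft]
  · simp [aff, lft]

lemma dn_lft {R : Type*} [CommRing R] (u : Fin (r + 1) → R) : dn (lft u) = 1 := by
  simp [dn, lft]

lemma map_lft {R R' : Type*} [Ring R] [Ring R'] (φ : R →+* R') (u : Fin (r + 1) → R) :
    (fun i => φ (lft u i)) = lft fun i => φ (u i) := by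
  unfold lft
  rw [map_ptN]
  congr 1
  · funext _
    exact map_one φ
  · funext j a
    fin_cases a
    · exact map_one φ
    · rfl

lemma map_aff {R R' : Type*} [Field R] [Field R'] (φ : R →+* R')
    (y : Option (Fin 1 ⊕ (Fin r × Fin 2)) → R) :
    (fun i => φ (aff y i)) = aff fun o => φ (y o) := by
  funext i
  refine Fin.cases ?_ (fun i => ?_) i
  · simp [aff]
  · simp [aff]

/-- homogenization -/
lemma exists_hom' (f : MvPolynomial (Fin (r + 1)) K) :
    ∃ (g : MvPolynomial (Option (Fin 1 ⊕ (Fin r × Fin 2))) K) (N : ℕ),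
      ∀ y : Option (Fin 1 ⊕ (Fin r × Fin 2)) → K, dn y ≠ 0 →
        eval y g = dn y ^ N * eval (aff y) f := by
  classical
  set Q : MvPolynomial (Option (Fin 1 ⊕ (Fin r × Fin 2))) K :=
    X (some (Sum.inl 0)) * ∏ j, X (some (Sum.inr (j, 0))) with hQ
  have hQe : ∀ y, eval y Q = dn y := by
    intro y
    simp [hQ, dn]
  induction f using MvPolynomial.induction_on with
  | C a => exact ⟨C a, 0, fun y hy => by simp⟩
  | add p q hp hq =>
    obtain ⟨g₁, N₁, h₁⟩ := hp
    obtain ⟨g₂, N₂, h₂⟩ := hq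
    refine ⟨Q ^ N₂ * g₁ + Q ^ N₁ * g₂, N₁ + N₂, fun y hy => ?_⟩
    simp only [map_add, map_mul, map_pow, hQe, h₁ y hy, h₂ y hy]
    ring
  | mul_X p i hp =>
    obtain ⟨g, N, h⟩ := hp
    have key : ∃ (t : MvPolynomial (Option (Fin 1 ⊕ (Fin r × Fin 2))) K) (M : ℕ),
        ∀ y : Option (Fin 1 ⊕ (Fin r × Fin 2)) → K, dn y ≠ 0 →
          eval y t = dn y ^ M * aff y i := by
      refine Fin.cases ?_ (fun j => ?_) i
      · refine ⟨X (some (Sum.inl 0)) * X none, 2, fun y hy => ?_⟩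
        have h1 : y (some (Sum.inl 0)) ≠ 0 := left_ne_zero_of_mul hy
        have h2 : ∏ j, y (some (Sum.inr (j, 0))) ≠ 0 := right_ne_zero_of_mul hy
        simp only [map_mul, eval_X, aff, Fin.cons_zero, dn]
        field_simp
      · refine ⟨X (some (Sum.inl 0)) * (X (some (Sum.inr (j, 1))) *
          ∏ k ∈ Finset.univ.erase j, X (some (Sum.inr (k, 0)))), 1, fun y hy => ?_⟩
        have h2 : ∏ j, y (some (Sum.inr (j, 0))) ≠ 0 := right_ne_zero_of_mul hy
        have h3 : y (some (Sum.inr (j, 0))) ≠ 0 := Finset.prod_ne_zero_iff.1 h2 j (Finset.mem_univ _)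
        have h4 : ∏ j, y (some (Sum.inr (j, 0))) = y (some (Sum.inr (j, 0))) *
            ∏ k ∈ Finset.univ.erase j, y (some (Sum.inr (k, 0))) :=
          (Finset.mul_prod_erase _ _ (Finset.mem_univ j)).symm
        simp only [map_mul, map_prod, eval_X, aff, Fin.cons_succ, dn, pow_one]
        rw [h4]
        field_simp
    obtain ⟨t, M, ht⟩ := key
    refine ⟨g * t, N + M, fun y hy => ?_⟩
    rw [map_mul, h y hy, ht y hy, map_mul, eval_X]
    ring

lemma mem_SK_aff {A : K} {q : Fin r → Fin 5 → K} {y : Option (Fin 1 ⊕ (Fin r × Fin 2)) → K}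
    (hy : y ∈ SK (!![A] : Matrix (Fin 1) (Fin 1) K) q) (h0 : dn y ≠ 0) : aff y ∈ AK A q := by
  have h1 : y (some (Sum.inl 0)) ≠ 0 := left_ne_zero_of_mul h0
  have h2 : ∏ j, y (some (Sum.inr (j, 0))) ≠ 0 := right_ne_zero_of_mul h0
  have h3 : ∀ j, y (some (Sum.inr (j, 0))) ≠ 0 := fun j =>
    Finset.prod_ne_zero_iff.1 h2 j (Finset.mem_univ _)
  have h4 : y none ^ 2 = Y720.MZ.FK !![A] q (xu (ba y)) (zu (ba y)) := hy
  have h5 : Y720.MZ.FK !![A] q (xu (ba y)) (zu (ba y)) =
      A * y (some (Sum.inl 0)) ^ 2 * ∏ j, qf (q j) (zu (ba y) j) := by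
    rw [Y720.MZ.FK]
    congr 1
    simp [bf, xu, ba, dotProduct, mulVec]
    ring
  have h6 : ∀ j, qf (q j) (zu (ba y) j) = y (some (Sum.inr (j, 0))) ^ 4 *
      qf (q j) ![1, aff y j.succ] := by
    intro j
    rw [← qf_smul]
    congr 1
    funext a
    fin_cases a
    · simp [zu, ba]
    · change y (some (Sum.inr (j, 1))) = y (some (Sum.inr (j, 0))) *
        (y (some (Sum.inr (j, 1))) / y (some (Sum.inr (j, 0))))
      have := h3 j
      field_simp
  change aff y 0 ^ 2 = A * ∏ i, qf (q i) ![1, aff y i.succ]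
  rw [h5] at h4
  simp only [h6] at h4
  rw [Finset.prod_mul_distrib, Finset.prod_pow] at h4
  have h7 : aff y 0 = y none / (y (some (Sum.inl 0)) * (∏ j, y (some (Sum.inr (j, 0)))) ^ 2) := rfl
  rw [h7, div_pow, h4]
  field_simp

lemma lft_mem_SK {A : K} {q : Fin r → Fin 5 → K} {u : Fin (r + 1) → K} (hu : u ∈ AK A q) :
    lft u ∈ SK (!![A] : Matrix (Fin 1) (Fin 1) K) q := by
  have h1 : u 0 ^ 2 = A * ∏ i, qf (q i) ![1, u i.succ] := hu
  change u 0 ^ 2 = Y720.MZ.FK !![A] q (fun _ => 1) (fun j => ![1, u j.succ])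
  rw [h1, Y720.MZ.FK]
  congr 1
  simp [bf, dotProduct, mulVec]

variable {L : Type*} [NontriviallyNormedField L] [CompleteSpace L] [CharZero L]

lemma continuous_lft :
    Continuous (lft : (Fin (r + 1) → L) → (Option (Fin 1 ⊕ (Fin r × Fin 2)) → L)) := by
  refine continuous_pi fun o => ?_
  rcases o with _ | i | ⟨j, a⟩
  · exact continuous_apply 0
  · exact continuous_const
  · fin_cases a
    · exact continuous_const
    · exact continuous_apply j.succ

lemma continuous_dn :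
    Continuous (dn : (Option (Fin 1 ⊕ (Fin r × Fin 2)) → L) → L) := by
  unfold dn
  exact (continuous_apply _).mul (continuous_finsetProd _ fun j _ => continuous_apply _)

lemma continuousAt_aff {y : Option (Fin 1 ⊕ (Fin r × Fin 2)) → L} (hy : dn y ≠ 0) :
    ContinuousAt (aff : (Option (Fin 1 ⊕ (Fin r × Fin 2)) → L) → (Fin (r + 1) → L)) y := by
  have h1 : y (some (Sum.inl 0)) ≠ 0 := left_ne_zero_of_mul hy
  have h2 : ∏ j, y (some (Sum.inr (j, 0))) ≠ 0 := right_ne_zero_of_mul hy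
  have h3 : ∀ j, y (some (Sum.inr (j, 0))) ≠ 0 := fun j =>
    Finset.prod_ne_zero_iff.1 h2 j (Finset.mem_univ _)
  have hc : ∀ o : Option (Fin 1 ⊕ (Fin r × Fin 2)),
      Continuous fun y : Option (Fin 1 ⊕ (Fin r × Fin 2)) → L => y o := fun o => continuous_apply o
  have hd : Continuous fun y : Option (Fin 1 ⊕ (Fin r × Fin 2)) → L =>
      y (some (Sum.inl 0)) * (∏ j, y (some (Sum.inr (j, 0)))) ^ 2 :=
    (hc _).mul ((continuous_finsetProd _ fun j _ => hc _).pow 2)
  rw [continuousAt_pi]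
  intro i
  refine Fin.cases ?_ (fun j => ?_) i
  · exact ContinuousAt.div (hc none).continuousAt hd.continuousAt (mul_ne_zero h1 (pow_ne_zero 2 h2))
  · exact ContinuousAt.div (hc _).continuousAt (hc _).continuousAt (h3 j)

/-- **affine charts** -/
theorem AK_FA {σ : K →+* L} {A : K} {q : Fin r → Fin 5 → K}
    (h : FAon σ (SK (!![A] : Matrix (Fin 1) (Fin 1) K) q)
      {x | ∀ j, (fun a => x (some (Sum.inr (j, a)))) ≠ 0}) : FA σ (AK A q) := by
  choose g N hg using fun f : MvPolynomial (Fin (r + 1)) K => exists_hom' f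
  have hfin2 := h.image fun I => ({f | g f ∈ I} : Set (MvPolynomial (Fin (r + 1)) K))
  refine Set.Finite.of_finite_image (f := fun I : Ideal (MvPolynomial (Fin (r + 1)) K) =>
    (I : Set (MvPolynomial (Fin (r + 1)) K))) (hfin2.subset ?_) (SetLike.coe_injective.injOn)
  rintro _ ⟨_, ⟨u, rfl⟩, rfl⟩
  refine ⟨IA σ (SK (!![A] : Matrix (Fin 1) (Fin 1) K) q) (lft u), ⟨lft u, ?_, rfl⟩, ?_⟩
  · intro j h0
    have := congrFun h0 0
    simp [lft] at this
  ext f
  change g f ∈ IA σ (SK (!![A] : Matrix (Fin 1) (Fin 1) K) q) (lft u) ↔ f ∈ IA σ (AK A q) u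
  rw [mem_IA_iff, mem_IA_iff]
  constructor
  · rintro ⟨U, hU, hf⟩
    refine ⟨_, continuous_lft.continuousAt.preimage_mem_nhds hU, fun y hy hyU => ?_⟩
    have h1 := hf (lft y) (lft_mem_SK hy) (by rw [map_lft]; exact hyU)
    rwa [hg f _ (by rw [dn_lft]; exact one_ne_zero), dn_lft, one_pow, one_mul, aff_lft] at h1
  · rintro ⟨U, hU, hf⟩
    have h1 : dn (lft u) ≠ (0 : L) := by rw [dn_lft]; exact one_ne_zero
    have h2 : U ∈ 𝓝 (aff (lft u)) := by rw [aff_lft]; exact hU
    refine ⟨_, inter_mem ((continuousAt_aff h1).preimage_mem_nhds h2)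
      (continuous_dn.continuousAt.preimage_mem_nhds (isOpen_ne.mem_nhds h1)), fun y hy hyU => ?_⟩
    have h3 : dn y ≠ 0 := by
      intro h0
      apply hyU.2
      have : dn (fun i => σ (y i)) = σ (dn y) := by simp [dn]
      rw [this, h0, map_zero]
    have h4 : (fun i => σ (aff y i)) ∈ U := by
      rw [map_aff]
      exact hyU.1
    rw [hg f y h3, hf _ (mem_SK_aff hy h3) h4, mul_zero]

end Pool.Agent.X296.Kum
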