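import Pool.Agent.Y718.GY
import Pool.Agent.Y720.MZ.Tw

/-!
# Points of infinite order on all the quadratic twists of a curve of genus one
-/

set_option autoImplicit false

open WeierstrassCurve Polynomial

namespace Pool.Agent.X296.Kum

open Pool.Agent.Y720.MZ Pool.Agent.Y718.X

lemma qpol_of {q : ℚ[X]} (h4 : q.natDegree ≤ 4) :
    q = qpol (q.coeff 0) (q.coeff 1) (q.coeff 2) (q.coeff 3) (q.coeff 4) := by
  conv_lhs => rw [q.as_sum_range_C_mul_X_pow' (show q.natDegree < 5 by omega)]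
  simp only [Finset.sum_range_succ, Finset.sum_range_zero, qpol]
  ring

lemma coeffs_qpol (a b c d e : ℚ) : (qpol a b c d e).coeff 0 = a ∧ (qpol a b c d e).coeff 1 = b ∧
    (qpol a b c d e).coeff 2 = c ∧ (qpol a b c d e).coeff 3 = d ∧ (qpol a b c d e).coeff 4 = e := by
  simp [qpol, coeff_X, coeff_C]

lemma qpol_comp (q₀ q₁ q₂ q₃ q₄ t₀ C' : ℚ) :
    C C' * (qpol q₀ q₁ q₂ q₃ q₄).comp (C t₀ + X) =
      qpol (C' * (q₀ + q₁ * t₀ + q₂ * t₀ ^ 2 + q₃ * t₀ ^ 3 + q₄ * t₀ ^ 4))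
        (C' * (q₁ + 2 * q₂ * t₀ + 3 * q₃ * t₀ ^ 2 + 4 * q₄ * t₀ ^ 3))
        (C' * (q₂ + 3 * q₃ * t₀ + 6 * q₄ * t₀ ^ 2)) (C' * (q₃ + 4 * q₄ * t₀)) (C' * q₄) := by
  simp only [qpol, add_comp, mul_comp, C_comp, X_comp, pow_comp, map_mul, map_add, map_pow,
    map_ofNat]
  ring

/-- Only finitely many `t₀` are the abscissae of points of finite order (in the sense of
differences) of quadratic twists. -/
theorem twist_inf {q : ℚ[X]} (hs : q.Separable) (h3 : 3 ≤ q.natDegree) (h4 : q.natDegree ≤ 4) :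
    ∃ T : Set ℚ, T.Finite ∧ ∀ t₀ ∉ T, q.eval t₀ ≠ 0 ∧ ∀ C' w : ℚ, w ≠ 0 → w ^ 2 = C' * q.eval t₀ →
      Inf (C C' * q.comp (C t₀ + X)) := by
  classical
  obtain ⟨q₀, q₁, q₂, q₃, q₄, hq⟩ : ∃ q₀ q₁ q₂ q₃ q₄, q = qpol q₀ q₁ q₂ q₃ q₄ :=
    ⟨_, _, _, _, _, qpol_of h4⟩
  subst hq
  have hdc := dc_ne_zero hs h3
  obtain ⟨Ξ, hΞ, htors⟩ := torsion_finite (K := ℚ) (a := q₂) (b := q₁ * q₃ - 4 * q₀ * q₄)
    (c := q₁ ^ 2 * q₄ + q₀ * q₃ ^ 2 - 4 * q₀ * q₂ * q₄) hdc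
  set P := qpol q₀ q₁ q₂ q₃ q₄ with hP
  have hPe : ∀ t, P.eval t = q₀ + q₁ * t + q₂ * t ^ 2 + q₃ * t ^ 3 + q₄ * t ^ 4 :=
    eval_qpol q₀ q₁ q₂ q₃ q₄
  have hP0 : P ≠ 0 := by
    intro h
    rw [h, natDegree_zero] at h3
    omega
  have hP1 : ∀ t, (derivative P).eval t = q₁ + 2 * q₂ * t + 3 * q₃ * t ^ 2 + 4 * q₄ * t ^ 3 := by
    intro t
    simp only [hP, qpol, derivative_add, derivative_C_mul, derivative_C, derivative_X,
      derivative_X_pow, eval_add, eval_mul, eval_C, eval_pow, eval_X, eval_one, eval_zero]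
    push_cast
    ring
  set M : ℚ → ℚ[X] := fun ξ => C (q₂ + ξ) + C (2 * q₃) * X + C (4 * q₄) * X ^ 2 with hM
  have hMe : ∀ ξ t, (M ξ).eval t = (q₂ + 3 * q₃ * t + 6 * q₄ * t ^ 2) -
      (q₃ * t + 2 * q₄ * t ^ 2) + ξ := by
    intro ξ t
    simp only [hM, eval_add, eval_mul, eval_C, eval_X, eval_pow]
    ring
  have hfin : ∀ ξ : ℚ, {t : ℚ | (derivative P).eval t ^ 2 = 4 * P.eval t * (M ξ).eval t}.Finite := by
    intro ξ
    by_contra hinf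
    have e : derivative P ^ 2 = C 4 * P * M ξ := by
      apply eq_of_infinite_eval_eq
      refine Set.Infinite.mono ?_ hinf
      intro t ht
      change (derivative P ^ 2).eval t = (C 4 * P * M ξ).eval t
      rw [eval_pow, eval_mul, eval_mul, eval_C]
      exact ht
    have h1 : P ∣ derivative P ^ 2 := ⟨C 4 * M ξ, by rw [e]; ring⟩
    have h2 : IsCoprime P (derivative P) := hs
    have h3' : IsCoprime P (derivative P ^ 2) := h2.pow_right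
    have h4' : IsUnit P := h3'.isUnit_of_dvd' dvd_rfl h1
    have h5 := natDegree_eq_zero_of_isUnit h4'
    omega
  refine ⟨{t | P.eval t = 0} ∪ ⋃ ξ ∈ Ξ, {t : ℚ | (derivative P).eval t ^ 2 =
    4 * P.eval t * (M ξ).eval t}, ?_, ?_⟩
  · refine Set.Finite.union ?_ (hΞ.biUnion fun ξ _ => hfin ξ)
    exact (P.roots.toFinset.finite_toSet).subset fun t ht => by
      rw [Finset.mem_coe, Multiset.mem_toFinset, mem_roots hP0]
      exact ht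
  intro t₀ ht₀
  rw [Set.mem_union, not_or, Set.mem_iUnion₂] at ht₀
  obtain ⟨ht1, ht2⟩ := ht₀
  have hq0 : P.eval t₀ ≠ 0 := ht1
  refine ⟨hq0, ?_⟩
  intro C' w hw hwC
  have hC' : C' ≠ 0 := by
    rintro rfl
    rw [zero_mul] at hwC
    exact hw (pow_eq_zero_iff two_ne_zero |>.1 hwC)
  rw [hP, qpol_comp]
  set a0 := q₀ + q₁ * t₀ + q₂ * t₀ ^ 2 + q₃ * t₀ ^ 3 + q₄ * t₀ ^ 4 with ha0
  set a1 := q₁ + 2 * q₂ * t₀ + 3 * q₃ * t₀ ^ 2 + 4 * q₄ * t₀ ^ 3 with ha1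
  set a2 := q₂ + 3 * q₃ * t₀ + 6 * q₄ * t₀ ^ 2 with ha2
  set a3 := q₃ + 4 * q₄ * t₀ with ha3
  have hPa : P.eval t₀ = a0 := hPe t₀
  rw [hPa] at hwC hq0
  obtain ⟨e0, e1, e2, e3, e4⟩ := coeffs_qpol (C' * a0) (C' * a1) (C' * a2) (C' * a3) (C' * q₄)
  have hA : Pool.Agent.Y718.X.Ab (qpol (C' * a0) (C' * a1) (C' * a2) (C' * a3) (C' * q₄)) = C' * a2 := e2
  have hB : Bb (qpol (C' * a0) (C' * a1) (C' * a2) (C' * a3) (C' * q₄)) =
      C' ^ 2 * (a1 * a3 - 4 * a0 * q₄) := by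
    rw [Bb, e0, e1, e3, e4]
    ring
  have hCb : Cb (qpol (C' * a0) (C' * a1) (C' * a2) (C' * a3) (C' * q₄)) =
      C' ^ 3 * (a1 ^ 2 * q₄ + a0 * a3 ^ 2 - 4 * a0 * a2 * q₄) := by
    rw [Cb, e0, e1, e2, e3, e4]
    ring
  have hD : Db (qpol (C' * a0) (C' * a1) (C' * a2) (C' * a3) (C' * q₄)) ≠ 0 := by
    have h1 : Db (qpol (C' * a0) (C' * a1) (C' * a2) (C' * a3) (C' * q₄)) =
        dc (C' * a0) (C' * a1) (C' * a2) (C' * a3) (C' * q₄) := by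
      rw [Db, dc, Pool.Agent.Y718.X.Ab, Bb, Cb, e0, e1, e2, e3, e4]
    rw [h1, dc_smul]
    have h2 := dc_shift t₀ q₀ q₁ q₂ q₃ q₄
    have h3 : dc a0 a1 a2 a3 q₄ = dc q₀ q₁ q₂ q₃ q₄ := by
      rw [← h2]
      congr 1 <;> simp only [ha0, ha1, ha2, ha3] <;> ring
    rw [h3]
    exact mul_ne_zero (pow_ne_zero 6 hC') hdc
  refine ⟨hD, w, hw, by rw [e0]; exact hwC, ?_⟩
  intro h n hn
  refine htors C' hC' (q₃ * t₀ + 2 * q₄ * t₀ ^ 2) _ _ _ ?_ ?_ ?_ _ _ h ?_ n hn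
  · rw [hA, ha2]; ring
  · rw [hB, ← shift_b, ha0, ha1, ha3]
  · rw [hCb, ← shift_c, ha0, ha1, ha2, ha3]
  · intro hmem
    apply ht2
    refine ⟨_, hmem, ?_⟩
    change (derivative P).eval t₀ ^ 2 = 4 * P.eval t₀ * (M _).eval t₀
    rw [hMe, hP1, hPa, xs, hwC, e1, e2, ← ha1, ← ha2]
    field_simp
    ring

end Pool.Agent.X296.Kum
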